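import Pool.Agent.H98.Per.T3c
import Pool.Agent.H53.Per.Iface

set_option autoImplicit false

/-! MP_2e6055, module F5: T3A and T3C of helper53's interface (chart transfer of Geo / T3c). -/

namespace Pool.Agent.H98.Per

open Pool.Agent.H7.UC Pool.Agent.H74.Tri Pool.Agent.H75.Perc Pool.Agent.H75.Lv Pool.Agent.H53.Per

/-- the chart as an automorphism of the lattice: the ray goes east -/
def tau (C : Ch) (f : Fc) : Fc := (-C.X f, -C.s * C.Y f)

def tauI (C : Ch) (g : Fc) : Fc := C.pt (-g.1) (-C.s * g.2)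

theorem ss (C : Ch) (t : ℤ) : -C.s * (-C.s * t) = t := by
  rcases C.hs with h | h <;> rw [h] <;> ring

theorem tauI_tau (C : Ch) (f : Fc) : tauI C (tau C f) = f := by
  unfold tauI tau
  simp only [neg_neg, ss, Ch.pt_XY]

theorem tau_tauI (C : Ch) (f : Fc) : tau C (tauI C f) = f := by
  unfold tauI tau
  simp only [Ch.X_pt, Ch.Y_pt, neg_neg, ss]

theorem tau_adj (C : Ch) (f g : Fc) : adjF (tau C f) (tau C g) ↔ adjF f g := by
  rw [adjF_iff, C.adj]
  unfold tau adC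
  simp only
  rcases C.hs with h | h <;> rw [h] <;> omega

theorem tau_inj (C : Ch) : Function.Injective (tau C) := fun f g h => by
  rw [← tauI_tau C f, h, tauI_tau]

theorem jn_tau (C : Ch) {S T : Set Fc} {f g : Fc} (h : Jn S f g) (hT : ∀ a ∈ S, tau C a ∈ T) :
    Jn T (tau C f) (tau C g) := by
  induction h with
  | refl => exact Jn.refl _
  | tail _ h2 ih => exact ih.step (hT _ h2.1) ((tau_adj C _ _).2 h2.2)

theorem jn_tauI (C : Ch) {S T : Set Fc} {f g : Fc} (h : Jn S f g) (hT : ∀ a ∈ S, tauI C a ∈ T) :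
    Jn T (tauI C f) (tauI C g) := by
  induction h with
  | refl => exact Jn.refl _
  | tail _ h2 ih =>
    refine ih.step (hT _ h2.1) ?_
    rw [← tau_adj C, tau_tauI, tau_tauI]
    exact h2.2

def tauE (C : Ch) : Fc ↪ Fc := ⟨tau C, tau_inj C⟩

theorem mem_tU {C : Ch} {U : Finset Fc} {a : Fc} : a ∈ U.map (tauE C) ↔ tauI C a ∈ U := by
  rw [Finset.mem_map]
  constructor
  · rintro ⟨f, hf, rfl⟩
    show tauI C (tau C f) ∈ U
    rw [tauI_tau]; exact hf
  · intro h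
    exact ⟨_, h, tau_tauI C a⟩

theorem isDom_tau (C : Ch) {U : Finset Fc} (hU : IsDom U) : IsDom (U.map (tauE C)) := by
  obtain ⟨⟨f, hf⟩, h2, h3⟩ := hU
  refine ⟨⟨tau C f, mem_tU.2 (by rw [tauI_tau]; exact hf)⟩, ?_, ?_⟩
  · intro f hf g hg
    rw [mem_tU] at hf hg
    have h := jn_tau C (T := {a | a ∈ U.map (tauE C)}) (show Jn {a | a ∈ U} _ _ from h2 _ hf _ hg) (by
      intro a ha
      show tau C a ∈ U.map (tauE C)
      rw [mem_tU, tauI_tau]; exact ha)
    rw [tau_tauI, tau_tauI] at h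
    exact h
  · intro f hf g hg
    rw [mem_tU] at hf hg
    have h := jn_tau C (T := {a | a ∉ U.map (tauE C)}) (show Jn {a | a ∉ U} _ _ from h3 _ hf _ hg) (by
      intro a ha
      show tau C a ∉ U.map (tauE C)
      rw [mem_tU, tauI_tau]; exact ha)
    rw [tau_tauI, tau_tauI] at h
    exact h

section

variable {C : Ch} {U : Finset Fc} {ω : Fc → Bool} {p : Pos} {v : Fc} {R t y : ℤ}

theorem abs_s (C : Ch) (a b : ℤ) : |-C.s * a - -C.s * b| = |a - b| := by
  rcases C.hs with h | h <;> rw [h]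
  · rw [abs_sub_comm]; congr 1; ring
  · congr 1; ring

theorem geo (h : Ent C U ω p v R t y) :
    Geo (U.map (tauE C)) (tau C (ph p)) (10 * t) (40 * t) (-C.s * y) := by
  have t1 := h.t1
  have tR := h.tR
  have hx := h.x
  have y1 := h.y1
  have y2 := h.y2
  have y3 := h.y3
  have hd := abs_s C (C.Y (ph p)) y
  have e2 : |-C.s * C.Y (ph p) - -C.s * y| ≤ 2 * t := by rw [hd]; exact y2
  rw [abs_le] at e2 y1 y2
  refine ⟨isDom_tau C h.st.dom, ?_, ?_, by omega, ?_, ?_⟩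
  · show -C.s * y - -C.s * C.Y (ph p) + 2 ≤ 10 * t
    omega
  · show -C.s * C.Y (ph p) - -C.s * y + 2 ≤ 10 * t
    omega
  · refine ⟨tau C (pl p), ?_, ?_⟩
    · rw [mem_tU, tauI_tau]; exact h.tip.2.1
    · have hk := C.king (adj_hl p)
      have e3 : |C.X (pl p) - C.X (ph p)| ≤ 1 := hk.1
      have e4 : |C.Y (pl p) - C.Y (ph p)| ≤ 1 := hk.2
      constructor
      · show |-C.X (pl p) - -C.X (ph p)| ≤ 10 * t - 1
        rw [abs_le] at e3 ⊢
        omega
      · show |-C.s * C.Y (pl p) - -C.s * C.Y (ph p)| ≤ 10 * t - 1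
        rw [abs_s]
        omega
  · intro f h1 h2 h3 h4
    rw [mem_tU]
    apply h.box
    rw [C.mem_Bx]
    change -C.X (ph p) + 10 * t - 1 ≤ f.1 at h3
    change f.1 ≤ -C.X (ph p) + 40 * t + 1 at h4
    have h5 : |C.Y (tauI C f) - y| ≤ 1 := by
      unfold tauI
      rw [Ch.Y_pt]
      rcases C.hs with h' | h' <;> rw [h'] at h1 h2 ⊢ <;> rw [abs_le] <;> constructor <;> omega
    have h6 : C.X (tauI C f) = -f.1 := by
      unfold tauI
      rw [Ch.X_pt]
    rw [h6]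
    have hy3 : |y - C.Y v| < R - t := by omega
    rw [abs_lt] at hy3
    rw [abs_le] at h5
    rw [abs_le, abs_le]
    omega

theorem mem_Sa (h : Ent C U ω p v R t y) (f : Fc) : f ∈ Anr C U p t y ↔
    tau C f ∈ Sa (U.map (tauE C)) (tau C (ph p)) (10 * t) (40 * t) (-C.s * y) := by
  have t1 := h.t1
  have y2 := h.y2
  rw [abs_le] at y2
  have e1 : |(tau C f).1 - (tau C (ph p)).1| = |C.X f - C.X (ph p)| := by
    show |-C.X f - -C.X (ph p)| = _
    rw [abs_sub_comm]; congr 1; ring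
  have e2 : |(tau C f).2 - (tau C (ph p)).2| = |C.Y f - C.Y (ph p)| := abs_s C _ _
  have e3 : tau C f ∈ Rw (tau C (ph p)) (10 * t) (40 * t) (-C.s * y) ↔
      C.Y f = y ∧ 10 * t ≤ C.X (ph p) - C.X f ∧ C.X (ph p) - C.X f ≤ 40 * t := by
    show (-C.s * C.Y f = -C.s * y ∧ -C.X (ph p) + 10 * t ≤ -C.X f ∧ -C.X f ≤ -C.X (ph p) + 40 * t) ↔ _
    have : -C.s * C.Y f = -C.s * y ↔ C.Y f = y := by
      rcases C.hs with h' | h' <;> rw [h'] <;> omega
    rw [this]
    omega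
  unfold Anr Sa An
  show (f ∈ U ∧ f ∈ Bx (ph p) (40 * t) ∧ f ∉ Bx (ph p) (10 * t - 1) ∧
    ¬ (C.Y f = y ∧ C.X f ≤ C.X (ph p))) ↔ (tau C f ∈ U.map (tauE C) ∧
    ((10 * t ≤ |(tau C f).1 - (tau C (ph p)).1| ∨ 10 * t ≤ |(tau C f).2 - (tau C (ph p)).2|) ∧
      |(tau C f).1 - (tau C (ph p)).1| ≤ 40 * t ∧ |(tau C f).2 - (tau C (ph p)).2| ≤ 40 * t) ∧
    tau C f ∉ Rw (tau C (ph p)) (10 * t) (40 * t) (-C.s * y))
  rw [mem_tU, tauI_tau, e3, e1, e2, C.mem_Bx, C.mem_Bx]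
  simp only [le_abs, abs_le]
  constructor
  · rintro ⟨h1, h2, h3, h4⟩
    refine ⟨h1, ⟨?_, h2⟩, ?_⟩ <;> omega
  · rintro ⟨h1, ⟨h2, h3⟩, h4⟩
    refine ⟨h1, h3, ?_, ?_⟩ <;> omega

theorem base_nb (h : Ent C U ω p v R t y) (e : ℤ) : tau C (sbase C p t y e) ∈
    Nb (tau C (ph p)) (10 * t) (40 * t) (-C.s * y) (-C.s * e) := by
  have t1 := h.t1
  unfold sbase tau Nb
  rw [Ch.X_pt, Ch.Y_pt]
  show -C.s * (y + e) = -C.s * y + -C.s * e ∧ -C.X (ph p) + 10 * t ≤ -(C.X (ph p) - 10 * t) ∧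
    -(C.X (ph p) - 10 * t) ≤ -C.X (ph p) + 40 * t
  refine ⟨by ring, ?_, ?_⟩ <;> omega

theorem side_s (C : Ch) {e : ℤ} (he : e = 1 ∨ e = -1) : -C.s * e = 1 ∨ -C.s * e = -1 := by
  rcases C.hs with h | h <;> rcases he with rfl | rfl <;> rw [h] <;> omega

theorem base_mem (h : Ent C U ω p v R t y) {e : ℤ} (he : e = 1 ∨ e = -1) :
    sbase C p t y e ∈ Anr C U p t y := by
  rw [mem_Sa h]
  exact (geo h).nb_mem (side_s C he) (base_nb h e)

theorem t3A : T3A := by
  intro C U ω p v R t y h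
  rw [Set.disjoint_left]
  rintro f ⟨_, h1⟩ ⟨_, h2⟩
  have hj : Jn (Anr C U p t y) (sbase C p t y 1) (sbase C p t y (-1)) :=
    h1.trans (h2.symm (base_mem h (Or.inr rfl)))
  have hj' := jn_tau C (T := Sa (U.map (tauE C)) (tau C (ph p)) (10 * t) (40 * t) (-C.s * y)) hj
    (fun a ha => (mem_Sa h a).1 ha)
  have n1 := base_nb h 1
  have n2 := base_nb h (-1)
  have g := geo h
  have m1 := (mem_Sa h _).1 (base_mem h (Or.inl rfl))
  have m2 := (mem_Sa h _).1 (base_mem h (Or.inr rfl))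
  rcases C.hs with hs | hs
  · have e1 : -C.s * 1 = -1 := by rw [hs]; rfl
    have e2 : -C.s * -1 = 1 := by rw [hs]; rfl
    rw [e1] at n1
    rw [e2] at n2
    exact g.sep0 n2 n1 m2 (hj'.symm m1)
  · have e1 : -C.s * 1 = 1 := by rw [hs]; rfl
    have e2 : -C.s * -1 = -1 := by rw [hs]; rfl
    rw [e1] at n1
    rw [e2] at n2
    exact g.sep0 n1 n2 m1 hj'

/-- an arc in the standard chart is a ray path -/
theorem rayE_of_arc (h : Ent C U ω p v R t y) {e : ℤ} (he : e = 1 ∨ e = -1) {c : Bool}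
    {η : Fc → Bool} {D : Set Fc} (hD : ∀ a ∈ D, tauI C a ∈ U → η (tauI C a) = c)
    (H : ArcE (U.map (tauE C)) (tau C (ph p)) (10 * t) (40 * t) (-C.s * y) (-C.s * e) D) :
    RayE C U p t y e c η := by
  obtain ⟨a, ha1, ha2, l, z, hl, hz, hzU⟩ := H
  have g := geo h
  have t1 := h.t1
  have hse := side_s C he
  have haS := g.nb_mem hse ha1
  have hb := base_nb h e
  -- the row of the base face
  have hrow : Jn (Sa (U.map (tauE C)) (tau C (ph p)) (10 * t) (40 * t) (-C.s * y))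
      (tau C (sbase C p t y e)) a := by
    obtain ⟨b1, b2, hbb⟩ : ∃ b1 b2, tau C (sbase C p t y e) = (b1, b2) := ⟨_, _, rfl⟩
    obtain ⟨a1, a2⟩ := a
    rw [hbb] at hb ⊢
    obtain ⟨c1, c2, c3⟩ := hb
    obtain ⟨d1, d2, d3⟩ := ha1
    simp only at c1 c2 c3 d1 d2 d3
    rw [d1, c1]
    apply jn_row
    intro k hk1 hk2
    apply g.nb_mem hse
    refine ⟨rfl, ?_, ?_⟩
    · simp only
      rcases le_total b1 a1 with hh | hh
      · rw [min_eq_left hh] at hk1; omega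
      · rw [min_eq_right hh] at hk1; omega
    · simp only
      rcases le_total b1 a1 with hh | hh
      · rw [max_eq_right hh] at hk2; omega
      · rw [max_eq_left hh] at hk2; omega
  have hback : ∀ b, b ∈ Sa (U.map (tauE C)) (tau C (ph p)) (10 * t) (40 * t) (-C.s * y) →
      tauI C b ∈ Anr C U p t y := by
    intro b hb
    rw [mem_Sa h, tau_tauI]
    exact hb
  have hrow' := jn_tauI C (T := Anr C U p t y) hrow hback
  rw [tauI_tau] at hrow'
  have hfS : tauI C a ∈ Sect C U p t y e := ⟨hback a haS, hrow'⟩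
  obtain ⟨d1, d2, d3⟩ := ha1
  refine ⟨tauI C a, tauI C l, hfS, ?_, ?_, ?_, ?_, ?_, ?_⟩
  · have : -C.s * a.2 = y + e := by
      rw [d1]
      have e1 := ss C y
      have e2 := ss C e
      rw [mul_add, e1, e2]
    unfold tauI
    rw [Ch.Y_pt, this]
  · unfold tauI
    rw [Ch.X_pt]
    have : a.1 ≤ -C.X (ph p) + 40 * t := d3
    omega
  · unfold tauI
    rw [Ch.X_pt]
    have : -C.X (ph p) + 10 * t ≤ a.1 := d2
    omega
  · exact hD a ha2 (mem_tU.1 haS.1)
  · have key : ∀ l, Jn (Sa (U.map (tauE C)) (tau C (ph p)) (10 * t) (40 * t) (-C.s * y) ∩ D) a l →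
        Jn {a | a ∈ Sect C U p t y e ∧ η a = c} (tauI C a) (tauI C l) ∧
          tauI C l ∈ Sect C U p t y e := by
      intro l hl
      induction hl with
      | refl => exact ⟨Jn.refl _, hfS⟩
      | @tail b d _ h2 ih =>
        have hadj : adjF (tauI C b) (tauI C d) := by
          rw [← tau_adj C, tau_tauI, tau_tauI]; exact h2.2
        have hdA := hback d h2.1.1
        have hdS : tauI C d ∈ Sect C U p t y e := ⟨hdA, ih.2.2.step hdA hadj⟩
        exact ⟨ih.1.step ⟨hdS, hD d h2.1.2 (mem_tU.1 h2.1.1.1)⟩ hadj, hdS⟩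
    exact (key l hl).1
  · refine ⟨tauI C z, ?_, ?_⟩
    · intro hh
      exact hzU (mem_tU.2 hh)
    · rw [← tau_adj C, tau_tauI, tau_tauI]; exact hz

theorem t3C : T3C := by
  obtain ⟨c0, hc0, H⟩ := arc_prob 3
  refine ⟨c0, hc0, 1, ?_⟩
  intro C U ω p v R t y h _ e c he
  have g := geo h
  have t1 := h.t1
  have hS : Sec (U.map (tauE C)) (tau C (ph p)) (10 * t) (40 * t) (-C.s * y) (-C.s * e) ⊆
      U.map (tauE C) := fun f hf => (mem_Sec.1 hf).1.1
  obtain ⟨H1, H2⟩ := H _ _ _ _ _ _ g (by push_cast; omega) (side_s C he) _ hS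
  rw [Pr_map] at H1 H2
  cases c
  · refine H2.trans (Pr_mono ?_)
    intro w _ hw
    refine rayE_of_arc h he ?_ hw
    intro a ha haU
    unfold mixc
    rw [if_pos haU, decide_eq_false_iff_not]
    intro hh
    apply (show a ∉ w.map (tauE C) from ha)
    exact mem_tU.2 hh
  · refine H1.trans (Pr_mono ?_)
    intro w _ hw
    refine rayE_of_arc h he ?_ hw
    intro a ha haU
    unfold mixc
    rw [if_pos haU, decide_eq_true_eq]
    exact mem_tU.1 (show a ∈ w.map (tauE C) by exact_mod_cast ha)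

end

end Pool.Agent.H98.Per
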