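import Pool.Agent.H53.Per.Tmp

set_option autoImplicit false

/-! MP_2e6055, module F5, second template: closed statements COR4 (helper98), EVP4 (helper50). -/

namespace Pool.Agent.H98.Per

open Pool.Agent.H7.UC Pool.Agent.H74.Tri Pool.Agent.H75.Perc Pool.Agent.H75.Lv Pool.Agent.H55.Lane
open Pool.Agent.H53.Per

/-- the event of the second template: ray events and crossings of all strips -/
def Ev4 (C : Ch) (U : Finset Fc) (p : Pos) (t b r y V1 V2 : ℤ) (c : Bool) (ω : Fc → Bool) : Prop :=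
  RayE C U p t y (-1) c ω ∧ RayE C U p t y 1 (!c) ω ∧
  (∀ s ∈ L4 t b r (C.X (ph p)) y V1 V2, CrC C {f | ω f = c} s) ∧
  ∀ s ∈ R4 t b r (C.X (ph p)) y V1 V2, CrC C {f | ω f = !c} s

/-- EVP4: the probability of the event. -/
def EVP4 : Prop := ∀ K : ℕ, ∃ pK : ℝ, 0 < pK ∧ ∃ t0 : ℤ, ∀ (C : Ch) (U : Finset Fc) (ω : Fc → Bool)
  (p : Pos) (z0 v : Fc) (e t b r y : ℤ), Sit4 C U ω p z0 v e t b r y → t0 ≤ t → e ≤ K * t →
  ∀ c : Bool, pK ≤ Pr U (fun w => Ev4 C U p t b r y (C.X v) (C.Y v) c (mixc U w ω))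

/-- COR4: on the event, with the colour `c` of T3B, there are corridor data with end set `Bx v r`. -/
def COR4 : Prop := ∀ (C : Ch) (U : Finset Fc) (ω : Fc → Bool) (p : Pos) (z0 v : Fc) (e t b r y : ℤ),
  Sit4 C U ω p z0 v e t b r y → ∀ c : Bool,
  (∀ (e' : ℤ) (P : Set Fc) (f : Fc), (e' = 1 ∨ e' = -1) →
    P ⊆ Anr C U p t y → sbase C p t y e' ∈ P → Jn P (sbase C p t y e') f → (∃ g, g ∉ U ∧ adjF f g) →
    ∃ f' ∈ P, ∃ g, g ∉ U ∧ adjF f' g ∧ (e' = -1 → ω g = c) ∧ (e' = 1 → ω g = !c)) →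
  Disjoint (Sect C U p t y 1) (Sect C U p t y (-1)) →
  Ev4 C U p t b r y (C.X v) (C.Y v) c ω →
  ∃ (β α : Finset Fc) (f1 a1 g1 : Fc), Cor U ω p c β α (Bx v r) f1 a1 g1

end Pool.Agent.H98.Per
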