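import Pool.Agent.H98.Per.T3x
import Pool.Agent.H74.Tri.KC
import Pool.Agent.H98.Tri.Int

set_option autoImplicit false

/-! MP_2e6055, module F5: T3B of helper53's interface. -/

namespace Pool.Agent.H98.Per

open Pool.Agent.H7.UC Pool.Agent.H74.Tri Pool.Agent.H75.Perc Pool.Agent.H75.Lv Pool.Agent.H53.Per

/-- three mutually adjacent faces are the faces of a vertex -/
theorem tri3 {f g h : Fc} (H : Tri3 f g h) : ∃ q : Pos, ph q = f ∧
    ((pl q = g ∧ pr q = h) ∨ (pl q = h ∧ pr q = g)) := by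
  obtain ⟨h1, h2, h3⟩ := H
  obtain ⟨m, rfl⟩ := adjF_nbr h1
  obtain ⟨l, rfl⟩ := adjF_nbr h2
  have key : l = m + 1 ∨ m = l + 1 := by
    rw [adjF_iff] at h3
    obtain ⟨i, j⟩ := f
    fin_cases m <;> fin_cases l <;> simp [nbr] at h3 ⊢ <;> omega
  rcases key with rfl | rfl
  · obtain ⟨a1, a2, a3⟩ := vtx_fc f m
    exact ⟨(vtx f m, kx m), a1, Or.inl ⟨a2, a3⟩⟩
  · obtain ⟨a1, a2, a3⟩ := vtx_fc f l
    exact ⟨(vtx f l, kx l), a1, Or.inr ⟨a2, a3⟩⟩

theorem st_congr {U : Finset Fc} {ω ω1 : Fc → Bool} (h : St U ω) (hc : ∀ f, f ∉ U → ω1 f = ω f) :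
    St U ω1 := by
  have e : ∀ v, chg U ω1 v → chg U ω v := by
    rintro v ⟨k, h1, h2, h3, h4⟩
    refine ⟨k, h1, h2, h3, ?_⟩
    rw [hc _ h2, hc _ h3] at h4
    exact h4
  refine ⟨h.dom, fun a b c ha hb hc' => h.two a b c (e a ha) (e b hb) (e c hc'), ?_⟩
  intro f g hf hg tf tg hfg
  rw [hc f hf, hc g hg] at hfg
  refine (h.cc f g hf hg tf tg hfg).mono ?_
  rintro a ⟨h1, h2⟩
  exact ⟨h1, by rw [hc a h1, hc f hf]; exact h2⟩

/-- `K` touches an outer face of colour `c` -/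
def Tc (U : Finset Fc) (ω : Fc → Bool) (K : Set Fc) (c : Bool) : Prop :=
  ∃ f ∈ K, ∃ g, g ∉ U ∧ adjF f g ∧ ω g = c

/-- orientation: two disjoint connected attached sets of different colours; a vertex between them seen
from the side of the tip is not a second tip -/
theorem core {U : Finset Fc} {ω : Fc → Bool} {p : Pos} (hU : St U ω) (hp : IsTip U ω p)
    {L N : Finset Fc} (hL : L ⊆ U) (hN : N ⊆ U) (hLN : Disjoint L N)
    (cL : ∀ f ∈ L, ∀ g ∈ L, Jn (↑L : Set Fc) f g) (cN : ∀ f ∈ N, ∀ g ∈ N, Jn (↑N : Set Fc) f g)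
    {κ : Bool} (tL : Tc U ω ↑L κ) (tN : Tc U ω ↑N (!κ)) {q : Pos} (hpL : ph p ∉ L)
    (hpN : ph p ∉ N) (hq : Jn (↑(U \ (L ∪ N)) : Set Fc) (ph p) (ph q)) :
    (pl q ∈ N → pr q ∈ L → κ = true) ∧ (pl q ∈ L → pr q ∈ N → κ = false) := by
  classical
  set ω1 : Fc → Bool := fun f => if f ∈ L then κ else if f ∈ N then !κ else ω f with hω1
  have oU : ∀ f, f ∉ U → ω1 f = ω f := by
    intro f hf
    simp only [hω1]
    rw [if_neg (fun h => hf (hL h)), if_neg (fun h => hf (hN h))]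
  have oL : ∀ f ∈ L, ω1 f = κ := fun f hf => by simp only [hω1]; rw [if_pos hf]
  have oN : ∀ f ∈ N, ω1 f = !κ := fun f hf => by
    simp only [hω1]
    rw [if_neg (fun h => Finset.disjoint_left.1 hLN h hf), if_pos hf]
  have h1 : St U ω1 := st_congr hU oU
  obtain ⟨l0, hl0, x0, hx0, hlx, hxc⟩ := tL
  obtain ⟨n0, hn0, y0, hy0, hny, hyc⟩ := tN
  have hl0' : l0 ∈ L := by exact_mod_cast hl0
  have hn0' : n0 ∈ N := by exact_mod_cast hn0
  set Z1 := comp (U \ L) (ph p) with hZ1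
  have hpUL : ph p ∈ U \ L := Finset.mem_sdiff.2 ⟨hp.1, hpL⟩
  have hSt1 : St Z1 ω1 := peelK U ω1 h1 L κ hL oL
    (fun f hf => ⟨l0, cL f hf l0 hl0', x0, hx0, hlx, by rw [oU x0 hx0]; exact hxc⟩) (ph p) hp.1 hpL
  have hpZ1 : ph p ∈ Z1 := mem_comp_self hpUL
  have hqUK : ph q ∈ U \ (L ∪ N) := by
    have := Jn.mem hq (by
      have : ph p ∈ U \ (L ∪ N) := by
        rw [Finset.mem_sdiff, Finset.mem_union]
        exact ⟨hp.1, fun h => h.elim hpL hpN⟩
      exact_mod_cast this)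
    exact_mod_cast this
  have hqZ1 : ph q ∈ Z1 := by
    rw [hZ1, mem_comp]
    rw [Finset.mem_sdiff, Finset.mem_union] at hqUK
    refine ⟨Finset.mem_sdiff.2 ⟨hqUK.1, fun h => hqUK.2 (Or.inl h)⟩, hq.mono ?_⟩
    intro f hf
    have hf' : f ∈ U \ (L ∪ N) := by exact_mod_cast hf
    rw [Finset.mem_sdiff, Finset.mem_union] at hf'
    exact_mod_cast Finset.mem_sdiff.2 ⟨hf'.1, fun h => hf'.2 (Or.inl h)⟩
  -- if a face of N is next to ph q, then N is in Z1 and we can peel it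
  have main : ∀ n1 ∈ N, adjF (ph q) n1 → ∀ l1 ∈ L, ({pl q, pr q} : Set Fc) ⊆ ↑N ∪ ↑L →
      ¬ Bi ω1 q := by
    intro n1 hn1 hqn l1 _ hsub hbi
    have hNL : ∀ f ∈ N, f ∈ U \ L := fun f hf =>
      Finset.mem_sdiff.2 ⟨hN hf, fun h => Finset.disjoint_left.1 hLN h hf⟩
    have hNZ : N ⊆ Z1 := by
      intro f hf
      have ha : n1 ∈ Z1 := comp_adj hqZ1 (hNL n1 hn1) hqn
      have hj := cN n1 hn1 f hf
      have key : ∀ g, Jn (↑N : Set Fc) n1 g → g ∈ Z1 := by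
        intro g hg
        induction hg with
        | refl => exact ha
        | tail _ h2 ih => exact comp_adj ih (hNL _ (by exact_mod_cast h2.1)) h2.2
      exact key f hj
    have hZU : ∀ f ∈ Z1, f ∈ U ∧ f ∉ L := fun f hf => Finset.mem_sdiff.1 (comp_sub _ _ hf)
    set Z := comp (Z1 \ N) (ph p) with hZ
    have hSt : St Z ω1 := peelK Z1 ω1 hSt1 N (!κ) hNZ oN
      (fun f hf => ⟨n0, cN f hf n0 hn0', y0, fun h => hy0 (hZU _ h).1, hny,
        by rw [oU y0 hy0]; exact hyc⟩) (ph p) hpZ1 hpN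
    have hpZ : ph p ∈ Z := mem_comp_self (Finset.mem_sdiff.2 ⟨hpZ1, hpN⟩)
    have hZU' : ∀ f ∈ Z, f ∈ U ∧ f ∉ L ∧ f ∉ N := fun f hf => by
      have := Finset.mem_sdiff.1 (comp_sub _ _ hf)
      exact ⟨(hZU f this.1).1, (hZU f this.1).2, this.2⟩
    have hqZ : ph q ∈ Z := by
      have key : ∀ g, Jn (↑(U \ (L ∪ N)) : Set Fc) (ph p) g → g ∈ Z := by
        intro g hg
        induction hg with
        | refl => exact hpZ
        | @tail b c _ h2 ih =>
          have hc : c ∈ U \ (L ∪ N) := by exact_mod_cast h2.1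
          rw [Finset.mem_sdiff, Finset.mem_union] at hc
          have hb1 : b ∈ Z1 := (Finset.mem_sdiff.1 (comp_sub _ _ ih)).1
          have hc1 : c ∈ Z1 := comp_adj hb1 (Finset.mem_sdiff.2 ⟨hc.1, fun h => hc.2 (Or.inl h)⟩) h2.2
          exact comp_adj ih (Finset.mem_sdiff.2 ⟨hc1, fun h => hc.2 (Or.inr h)⟩) h2.2
      exact key _ hq
    have hout : ∀ f ∈ ({pl q, pr q} : Set Fc), f ∉ Z := by
      intro f hf hfZ
      obtain ⟨_, h3, h4⟩ := hZU' f hfZ
      rcases hsub hf with h5 | h5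
      · exact h4 (by exact_mod_cast h5)
      · exact h3 (by exact_mod_cast h5)
    have htq : IsTip Z ω1 q := ⟨hqZ, hout _ (Or.inl rfl), hout _ (Or.inr rfl), hbi⟩
    have htp : IsTip Z ω1 p := by
      refine ⟨hpZ, fun h => hp.2.1 (hZU' _ h).1, fun h => hp.2.2.1 (hZU' _ h).1, ?_, ?_⟩
      · rw [oU _ hp.2.1]; exact hp.2.2.2.1
      · rw [oU _ hp.2.2.1]; exact hp.2.2.2.2
    have hpq := Pool.Agent.H98.Tri.tipU Z ω1 hSt p q htp htq
    have : pl q ∈ U := by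
      rcases hsub (Or.inl rfl : pl q ∈ ({pl q, pr q} : Set Fc)) with h5 | h5
      · exact hN (by exact_mod_cast h5)
      · exact hL (by exact_mod_cast h5)
    rw [← hpq] at this
    exact hp.2.1 this
  constructor
  · intro hl hr
    by_contra hκ
    have hκ' : κ = false := by simpa using hκ
    refine main _ hl (adj_hl q) _ hr ?_ ⟨?_, ?_⟩
    · rintro f (rfl | rfl)
      · exact Or.inl (by exact_mod_cast hl)
      · exact Or.inr (by exact_mod_cast hr)
    · rw [oN _ hl, hκ']; rfl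
    · rw [oL _ hr, hκ']
  · intro hl hr
    by_contra hκ
    have hκ' : κ = true := by simpa using hκ
    refine main _ hr (adj_hr q) _ hl ?_ ⟨?_, ?_⟩
    · rintro f (rfl | rfl)
      · exact Or.inr (by exact_mod_cast hl)
      · exact Or.inl (by exact_mod_cast hr)
    · rw [oL _ hl, hκ']
    · rw [oN _ hr, hκ']; rfl

section

variable {C : Ch} {U : Finset Fc} {ω : Fc → Bool} {p : Pos} {v : Fc} {R t y : ℤ}

/-- the ray across the annulus -/
def ray (C : Ch) (p : Pos) (t y : ℤ) : Set Fc :=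
  {f | C.Y f = y ∧ C.X (ph p) - 40 * t ≤ C.X f ∧ C.X f ≤ C.X (ph p) - 10 * t}

/-- SEP in the chart -/
theorem sepC (h : Ent C U ω p v R t y) {TL TR : Set Fc} (hL : TL ⊆ Anr C U p t y)
    (hR : TR ⊆ Anr C U p t y) {l l' z z' : Fc} (hbL : sbase C p t y 1 ∈ TL)
    (hbR : sbase C p t y (-1) ∈ TR) (hl : Jn TL (sbase C p t y 1) l)
    (hl' : Jn TR (sbase C p t y (-1)) l') (hz : adjF l z) (hz' : adjF l' z') (hzU : z ∉ U)
    (hzU' : z' ∉ U) :
    ¬ Jn {f | f ∈ U ∧ f ∉ TL ∧ f ∉ TR ∧ f ∉ ray C p t y} (C.pt (C.X (ph p) - 10 * t + 1) y)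
      (C.pt (C.X (ph p) - 40 * t - 1) y) := by
  intro hj
  have g := geo h
  have n1 := base_nb h 1
  have n2 := base_nb h (-1)
  have e1 : tau C (C.pt (C.X (ph p) - 10 * t + 1) y) =
      ((tau C (ph p)).1 + 10 * t - 1, -C.s * y) := by
    unfold tau
    rw [Ch.X_pt, Ch.Y_pt]
    refine Prod.ext ?_ rfl
    show -(C.X (ph p) - 10 * t + 1) = -C.X (ph p) + 10 * t - 1
    ring
  have e2 : tau C (C.pt (C.X (ph p) - 40 * t - 1) y) =
      ((tau C (ph p)).1 + 40 * t + 1, -C.s * y) := by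
    unfold tau
    rw [Ch.X_pt, Ch.Y_pt]
    refine Prod.ext ?_ rfl
    show -(C.X (ph p) - 40 * t - 1) = -C.X (ph p) + 40 * t + 1
    ring
  have tS : ∀ {T : Set Fc}, T ⊆ Anr C U p t y → ({b | tauI C b ∈ T} : Set Fc) ⊆
      Sa (U.map (tauE C)) (tau C (ph p)) (10 * t) (40 * t) (-C.s * y) := by
    intro T hT b hb
    have := (mem_Sa h _).1 (hT hb)
    rwa [tau_tauI] at this
  have tJ : ∀ {T : Set Fc} {a b : Fc}, Jn T a b → Jn {b | tauI C b ∈ T} (tau C a) (tau C b) := by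
    intro T a b hab
    refine jn_tau C hab ?_
    intro a ha
    show tauI C (tau C a) ∈ T
    rw [tauI_tau]; exact ha
  have tz : ∀ {z : Fc}, z ∉ U → tau C z ∉ U.map (tauE C) := by
    intro z hz hh
    rw [mem_tU, tauI_tau] at hh
    exact hz hh
  have hbL' : tau C (sbase C p t y 1) ∈ ({b | tauI C b ∈ TL} : Set Fc) := by
    show tauI C (tau C _) ∈ TL
    rw [tauI_tau]; exact hbL
  have hbR' : tau C (sbase C p t y (-1)) ∈ ({b | tauI C b ∈ TR} : Set Fc) := by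
    show tauI C (tau C _) ∈ TR
    rw [tauI_tau]; exact hbR
  have hj' : ∀ {A B : Set Fc}, (A = TL ∧ B = TR) ∨ (A = TR ∧ B = TL) →
      Jn {f | f ∈ U.map (tauE C) ∧ f ∉ ({b | tauI C b ∈ A} : Set Fc) ∧
        f ∉ ({b | tauI C b ∈ B} : Set Fc) ∧
        f ∉ Rw (tau C (ph p)) (10 * t) (40 * t) (-C.s * y)}
      ((tau C (ph p)).1 + 10 * t - 1, -C.s * y) ((tau C (ph p)).1 + 40 * t + 1, -C.s * y) := by
    intro A B hAB
    rw [← e1, ← e2]
    refine jn_tau C hj ?_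
    rintro a ⟨h1, h2, h3, h4⟩
    have h5 : tauI C (tau C a) = a := tauI_tau C a
    refine ⟨?_, ?_, ?_, ?_⟩
    · rw [mem_tU, h5]; exact h1
    · show ¬ tauI C (tau C a) ∈ A
      rw [h5]
      rcases hAB with ⟨rfl, rfl⟩ | ⟨rfl, rfl⟩
      · exact h2
      · exact h3
    · show ¬ tauI C (tau C a) ∈ B
      rw [h5]
      rcases hAB with ⟨rfl, rfl⟩ | ⟨rfl, rfl⟩
      · exact h3
      · exact h2
    · rintro ⟨b1, b2, b3⟩
      apply h4
      change -C.s * C.Y a = -C.s * y at b1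
      change -C.X (ph p) + 10 * t ≤ -C.X a at b2
      change -C.X a ≤ -C.X (ph p) + 40 * t at b3
      refine ⟨?_, by omega, by omega⟩
      rcases C.hs with h' | h' <;> rw [h'] at b1 <;> omega
  rcases C.hs with hs | hs
  · have f1 : -C.s * 1 = -1 := by rw [hs]; rfl
    have f2 : -C.s * -1 = 1 := by rw [hs]; rfl
    rw [f1] at n1
    rw [f2] at n2
    exact g.sep (tS hR) (tS hL) n2 n1 hbR' hbL' (tJ hl') (tJ hl) ((tau_adj C _ _).2 hz')
      ((tau_adj C _ _).2 hz) (tz hzU') (tz hzU) (hj' (Or.inr ⟨rfl, rfl⟩))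
  · have f1 : -C.s * 1 = 1 := by rw [hs]; rfl
    have f2 : -C.s * -1 = -1 := by rw [hs]; rfl
    rw [f1] at n1
    rw [f2] at n2
    exact g.sep (tS hL) (tS hR) n1 n2 hbL' hbR' (tJ hl) (tJ hl') ((tau_adj C _ _).2 hz)
      ((tau_adj C _ _).2 hz') (tz hzU) (tz hzU') (hj' (Or.inl ⟨rfl, rfl⟩))

/-- both colours are touched by the two arcs together -/
theorem both (h : Ent C U ω p v R t y) {L N : Set Fc} (hL : L ⊆ Anr C U p t y)
    (hN : N ⊆ Anr C U p t y) {l l' z z' : Fc} (hbL : sbase C p t y 1 ∈ L)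
    (hbN : sbase C p t y (-1) ∈ N) (hl : Jn L (sbase C p t y 1) l)
    (hl' : Jn N (sbase C p t y (-1)) l') (hz : adjF l z) (hz' : adjF l' z') (hzU : z ∉ U)
    (hzU' : z' ∉ U) (c : Bool) : Tc U ω L c ∨ Tc U ω N c := by
  by_contra hcon
  push Not at hcon
  obtain ⟨hcL, hcN⟩ := hcon
  have t1 := h.t1
  have tR := h.tR
  have hx := h.x
  have y1 := h.y1
  have y2 := h.y2
  have y3 := h.y3
  have hy3 : |y - C.Y v| < R - t := by omega
  rw [abs_lt] at hy3
  rw [abs_le] at y1 y2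
  obtain ⟨f0, g0, hf0, hg0, hfg, hgc⟩ := h.tb c
  have hvU : v ∈ U := h.box ((C.mem_Bx v v R).2 (by simp; omega))
  have hvB : v ∉ Bx (ph p) (40 * t) := by
    rw [C.mem_Bx, abs_le]; omega
  have hf0U : f0 ∈ U := (Jn.mem hf0 ⟨hvU, hvB⟩).1
  have hpc : ∃ x, x ∉ U ∧ adjF (ph p) x ∧ ω x = c := by
    cases c
    · exact ⟨pr p, h.tip.2.2.1, adj_hr p, h.tip.2.2.2.2⟩
    · exact ⟨pl p, h.tip.2.1, adj_hl p, h.tip.2.2.2.1⟩
  have harc := Pool.Agent.H11.Tri.arcC U ω h.st p h.tip c (ph p) f0 h.tip.1 hf0U hpc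
    ⟨g0, hg0, hfg, hgc⟩
  have hLB : ∀ {T : Set Fc}, T ⊆ Anr C U p t y → ∀ f, f ∉ Bx (ph p) (40 * t) → f ∉ T :=
    fun hT f hf hfT => hf (hT hfT).2.1
  have hrayU : ∀ f ∈ ray C p t y, ∀ g, adjF f g → g ∈ U := by
    rintro f ⟨r1, r2, r3⟩ g hfg
    have hk := C.king hfg
    rw [abs_le, abs_le] at hk
    apply h.box
    rw [C.mem_Bx, abs_le, abs_le]
    omega
  have hrayB : ∀ f ∈ ray C p t y, f ∈ Bx (ph p) (40 * t) := by
    rintro f ⟨r1, r2, r3⟩
    rw [C.mem_Bx, abs_le, abs_le]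
    omega
  refine sepC h hL hN hbL hbN hl hl' hz hz' hzU hzU' ?_
  -- r0 to the face ahead
  have s1 : Jn {f | f ∈ U ∧ f ∉ L ∧ f ∉ N ∧ f ∉ ray C p t y}
      (C.pt (C.X (ph p) - 10 * t + 1) y) (ph p) := by
    refine C.jn_rect (a := C.X (ph p) - 10 * t + 1) (b := C.X (ph p))
      (c := min y (C.Y (ph p))) (d := max y (C.Y (ph p))) ?_ ?_ ?_
    · rintro f ⟨q1, q2, q3, q4⟩
      have hB : f ∈ Bx (ph p) (10 * t - 1) := by
        rw [C.mem_Bx, abs_le, abs_le]; omega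
      refine ⟨?_, fun hf => (hL hf).2.2.1 hB, fun hf => (hN hf).2.2.1 hB, ?_⟩
      · apply h.box
        rw [C.mem_Bx, abs_le, abs_le]; omega
      · rintro ⟨_, _, r3⟩; omega
    · refine ⟨?_, ?_, ?_, ?_⟩ <;> simp only [Ch.X_pt, Ch.Y_pt] <;> omega
    · refine ⟨?_, ?_, ?_, ?_⟩ <;> omega
  have s2 : Jn {f | f ∈ U ∧ f ∉ L ∧ f ∉ N ∧ f ∉ ray C p t y} (ph p) f0 := by
    refine harc.mono ?_
    rintro a ⟨a1, x, a2, a3, a4⟩
    refine ⟨a1, fun ha => hcL ⟨a, ha, x, a2, a3, a4⟩, fun ha => hcN ⟨a, ha, x, a2, a3, a4⟩, ?_⟩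
    intro ha
    exact a2 (hrayU a ha x a3)
  have s3 : Jn {f | f ∈ U ∧ f ∉ L ∧ f ∉ N ∧ f ∉ ray C p t y} f0 v := by
    refine (Jn.symm (S := {a | a ∈ U ∧ a ∉ Bx (ph p) (40 * t)}) ⟨hvU, hvB⟩ hf0).mono ?_
    rintro a ⟨a1, a2⟩
    exact ⟨a1, hLB hL a a2, hLB hN a a2, fun ha => a2 (hrayB a ha)⟩
  have s4 : Jn {f | f ∈ U ∧ f ∉ L ∧ f ∉ N ∧ f ∉ ray C p t y} v
      (C.pt (C.X (ph p) - 40 * t - 1) y) := by
    refine C.jn_rect (a := C.X v) (b := C.X (ph p) - 40 * t - 1)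
      (c := min y (C.Y v)) (d := max y (C.Y v)) ?_ ?_ ?_
    · rintro f ⟨q1, q2, q3, q4⟩
      have hB : f ∉ Bx (ph p) (40 * t) := by
        rw [C.mem_Bx, abs_le, abs_le]; omega
      refine ⟨?_, hLB hL f hB, hLB hN f hB, fun ha => hB (hrayB f ha)⟩
      apply h.box
      rw [C.mem_Bx, abs_le, abs_le]; omega
    · refine ⟨?_, ?_, ?_, ?_⟩ <;> omega
    · refine ⟨?_, ?_, ?_, ?_⟩ <;> simp only [Ch.X_pt, Ch.Y_pt] <;> omega
  exact ((s1.trans s2).trans s3).trans s4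

/-- the sector reaches the outside -/
theorem sect_out (h : Ent C U ω p v R t y) {e : ℤ} (he : e = 1 ∨ e = -1) :
    ∃ l z, Jn (Sect C U p t y e) (sbase C p t y e) l ∧ adjF l z ∧ z ∉ U := by
  obtain ⟨c0, hc0, H⟩ := arc_prob 3
  have g := geo h
  have t1 := h.t1
  have hS : Sec (U.map (tauE C)) (tau C (ph p)) (10 * t) (40 * t) (-C.s * y) (-C.s * e) ⊆
      U.map (tauE C) := fun f hf => (mem_Sec.1 hf).1.1
  obtain ⟨H1, _⟩ := H _ _ _ _ _ _ g (by push_cast; omega) (side_s C he) _ hS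
  have : ∃ w, ArcE (U.map (tauE C)) (tau C (ph p)) (10 * t) (40 * t) (-C.s * y) (-C.s * e) w := by
    by_contra hcon
    push Not at hcon
    have h0 : Pr (U.map (tauE C)) (fun w => ArcE (U.map (tauE C)) (tau C (ph p)) (10 * t)
        (40 * t) (-C.s * y) (-C.s * e) ↑w) ≤ Pr (U.map (tauE C)) (fun _ => False) :=
      Pr_mono fun w _ hw => hcon _ hw
    have h1 : Pr (U.map (tauE C)) (fun _ => False) = 0 := by
      classical
      rw [Pr_eq, Finset.filter_false, Finset.card_empty]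
      simp
    rw [h1] at h0
    linarith
  obtain ⟨w, hw⟩ := this
  have hray : RayE C U p t y e true (fun _ => true) := rayE_of_arc h he (fun _ _ _ => rfl) hw
  obtain ⟨f, g, h1, _, _, _, _, h2, z, h3, h4⟩ := hray
  refine ⟨g, z, ?_, h4, h3⟩
  have h5 : Jn (Sect C U p t y e) f g := by
    refine h2.mono ?_
    rintro a ⟨ha, _⟩
    exact ha
  refine Jn.trans ?_ h5
  have key : ∀ f, Jn (Anr C U p t y) (sbase C p t y e) f →
      Jn (Sect C U p t y e) (sbase C p t y e) f := by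
    intro f hf
    induction hf with
    | refl => exact Jn.refl _
    | tail b1 b2 ih => exact ih.step ⟨b2.1, Jn.step b1 b2.1 b2.2⟩ b2.2
  exact key f h1.2

theorem t3B : T3B := by
  classical
  intro C U ω p v R t y h
  have t1 := h.t1
  have tR := h.tR
  have hx := h.x
  have y1 := h.y1
  have y2 := h.y2
  have y3 := h.y3
  have hy3 : |y - C.Y v| < R - t := by omega
  rw [abs_lt] at hy3
  rw [abs_le] at y1 y2
  -- the vertex at the base of the upper sector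
  obtain ⟨A, hA1, hA2, hA3, hT⟩ : ∃ A : Fc, C.X A = C.X (ph p) - 10 * t + 1 ∧ y ≤ C.Y A ∧
      C.Y A ≤ y + 1 ∧ Tri3 A (C.pt (C.X (ph p) - 10 * t) y) (sbase C p t y 1) := by
    unfold sbase
    rcases C.hs with hs | hs
    · refine ⟨C.pt (C.X (ph p) - 10 * t + 1) y, by rw [Ch.X_pt], by rw [Ch.Y_pt],
        by rw [Ch.Y_pt]; omega, ?_, ?_, ?_⟩ <;> rw [C.adj_pt] <;> unfold adC <;> omega
    · refine ⟨C.pt (C.X (ph p) - 10 * t + 1) (y + 1), by rw [Ch.X_pt], by rw [Ch.Y_pt]; omega,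
        by rw [Ch.Y_pt], ?_, ?_, ?_⟩ <;> rw [C.adj_pt] <;> unfold adC <;> omega
  obtain ⟨q, hq, hq'⟩ := tri3 hT
  -- main statement for a pair of arcs
  have main : ∀ L N : Set Fc, L ⊆ Anr C U p t y → N ⊆ Anr C U p t y →
      (∀ f ∈ L, Jn L (sbase C p t y 1) f) → (∀ f ∈ N, Jn N (sbase C p t y (-1)) f) →
      sbase C p t y 1 ∈ L → sbase C p t y (-1) ∈ N →
      (∃ l ∈ L, ∃ z, z ∉ U ∧ adjF l z) → (∃ l ∈ N, ∃ z, z ∉ U ∧ adjF l z) →
      Tc U ω L (decide (pl q = C.pt (C.X (ph p) - 10 * t) y)) ∧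
      Tc U ω N (!decide (pl q = C.pt (C.X (ph p) - 10 * t) y)) := by
    intro L N hL hN cL cN bL bN oL oN
    obtain ⟨l, hl, z, hz, hlz⟩ := oL
    obtain ⟨l', hl', z', hz', hlz'⟩ := oN
    have hboth := both h hL hN bL bN (cL l hl) (cN l' hl') hlz hlz' hz hz'
    -- the finite sets
    set LF : Finset Fc := U.filter (fun f => f ∈ L) with hLF
    set NF : Finset Fc := U.filter (fun f => f ∈ N ∨ f ∈ ray C p t y) with hNF
    have hrayU : ∀ f ∈ ray C p t y, f ∈ U ∧ ∀ g, adjF f g → g ∈ U := by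
      rintro f ⟨r1, r2, r3⟩
      constructor
      · apply h.box
        rw [C.mem_Bx, abs_le, abs_le]; omega
      · intro g hfg
        have hk := C.king hfg
        rw [abs_le, abs_le] at hk
        apply h.box
        rw [C.mem_Bx, abs_le, abs_le]
        omega
    have mL : ∀ f, f ∈ LF ↔ f ∈ L := fun f => by
      rw [hLF, Finset.mem_filter]
      exact ⟨fun h => h.2, fun h => ⟨(hL h).1, h⟩⟩
    have mN : ∀ f, f ∈ NF ↔ f ∈ N ∨ f ∈ ray C p t y := fun f => by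
      rw [hNF, Finset.mem_filter]
      refine ⟨fun h => h.2, fun h => ⟨?_, h⟩⟩
      rcases h with h | h
      · exact (hN h).1
      · exact (hrayU f h).1
    have hnray : ∀ {T : Set Fc}, T ⊆ Anr C U p t y → ∀ f ∈ T, f ∉ ray C p t y := by
      rintro T hT f hf ⟨r1, r2, r3⟩
      exact (hT hf).2.2.2 ⟨r1, by omega⟩
    have hdis : Disjoint LF NF := by
      rw [Finset.disjoint_left]
      intro f h1 h2
      rw [mL] at h1
      rw [mN] at h2
      rcases h2 with h2 | h2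
      · have hj : Jn (Anr C U p t y) (sbase C p t y 1) f := (cL f h1).mono hL
        have hj' : Jn (Anr C U p t y) (sbase C p t y (-1)) f := (cN f h2).mono hN
        exact Set.disjoint_left.1 (t3A C U ω p v R t y h) ⟨hL h1, hj⟩ ⟨hN h2, hj'⟩
      · exact hnray hL f h1 h2
    have cLF : ∀ f ∈ LF, ∀ g ∈ LF, Jn (↑LF : Set Fc) f g := by
      intro f hf g hg
      rw [mL] at hf hg
      refine (((cL f hf).symm bL).trans (cL g hg)).mono ?_
      intro a ha
      exact_mod_cast (mL a).2 ha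
    have cray : ∀ f ∈ ray C p t y, Jn (ray C p t y) (C.pt (C.X (ph p) - 10 * t) y) f := by
      rintro f ⟨r1, r2, r3⟩
      refine C.jn_rect (a := C.X (ph p) - 40 * t) (b := C.X (ph p) - 10 * t) (c := y) (d := y)
        ?_ ?_ ?_
      · rintro g ⟨q1, q2, q3, q4⟩
        exact ⟨by omega, q1, q2⟩
      · refine ⟨?_, ?_, ?_, ?_⟩ <;> simp only [Ch.X_pt, Ch.Y_pt] <;> omega
      · refine ⟨?_, ?_, ?_, ?_⟩ <;> omega
    have cNF0 : ∀ f ∈ NF, Jn (↑NF : Set Fc) (sbase C p t y (-1)) f := by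
      intro f hf
      rw [mN] at hf
      rcases hf with hf | hf
      · refine (cN f hf).mono ?_
        intro a ha
        exact_mod_cast (mN a).2 (Or.inl ha)
      · have hb : C.pt (C.X (ph p) - 10 * t) y ∈ ray C p t y := by
          refine ⟨?_, ?_, ?_⟩ <;> simp only [Ch.X_pt, Ch.Y_pt] <;> omega
        have h1 : Jn (↑NF : Set Fc) (sbase C p t y (-1)) (C.pt (C.X (ph p) - 10 * t) y) := by
          refine Jn.single ?_ ?_
          · exact_mod_cast (mN _).2 (Or.inr hb)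
          · unfold sbase
            rw [C.adj_pt]
            unfold adC
            omega
        refine h1.trans ((cray f hf).mono ?_)
        intro a ha
        exact_mod_cast (mN a).2 (Or.inr ha)
    have bNF : sbase C p t y (-1) ∈ NF := (mN _).2 (Or.inl bN)
    have cNF : ∀ f ∈ NF, ∀ g ∈ NF, Jn (↑NF : Set Fc) f g := fun f hf g hg =>
      ((cNF0 f hf).symm (by exact_mod_cast bNF)).trans (cNF0 g hg)
    have hpB : ph p ∈ Bx (ph p) (10 * t - 1) := by
      rw [C.mem_Bx, sub_self, sub_self, abs_zero]; omega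
    have hpL : ph p ∉ LF := by
      rw [mL]
      exact fun hh => (hL hh).2.2.1 hpB
    have hpN : ph p ∉ NF := by
      rw [mN]
      rintro (hh | ⟨_, _, r3⟩)
      · exact (hN hh).2.2.1 hpB
      · omega
    have hjq : Jn (↑(U \ (LF ∪ NF)) : Set Fc) (ph p) (ph q) := by
      rw [hq]
      refine C.jn_rect (a := C.X (ph p) - 10 * t + 1) (b := C.X (ph p))
        (c := min y (C.Y (ph p))) (d := max (y + 1) (C.Y (ph p))) ?_ ?_ ?_
      · rintro f ⟨q1, q2, q3, q4⟩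
        have hB : f ∈ Bx (ph p) (10 * t - 1) := by
          rw [C.mem_Bx, abs_le, abs_le]; omega
        have hfU : f ∈ U := by
          apply h.box
          rw [C.mem_Bx, abs_le, abs_le]; omega
        have : f ∈ U \ (LF ∪ NF) := by
          rw [Finset.mem_sdiff, Finset.mem_union, mL, mN]
          refine ⟨hfU, ?_⟩
          rintro (hh | hh | ⟨_, _, r3⟩)
          · exact (hL hh).2.2.1 hB
          · exact (hN hh).2.2.1 hB
          · omega
        exact_mod_cast this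
      · refine ⟨?_, ?_, ?_, ?_⟩ <;> omega
      · refine ⟨?_, ?_, ?_, ?_⟩ <;> omega
    have hBN : C.pt (C.X (ph p) - 10 * t) y ∈ NF := by
      rw [mN]
      right
      refine ⟨?_, ?_, ?_⟩ <;> simp only [Ch.X_pt, Ch.Y_pt] <;> omega
    have bLF : sbase C p t y 1 ∈ LF := (mL _).2 bL
    set κ0 : Bool := decide (pl q = C.pt (C.X (ph p) - 10 * t) y) with hκ0
    have hcore : ∀ κ : Bool, Tc U ω L κ → Tc U ω N (!κ) → κ = κ0 := by
      intro κ tL tN
      have tL' : Tc U ω ↑LF κ := by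
        obtain ⟨f, hf, rest⟩ := tL
        exact ⟨f, by exact_mod_cast (mL f).2 hf, rest⟩
      have tN' : Tc U ω ↑NF (!κ) := by
        obtain ⟨f, hf, rest⟩ := tN
        exact ⟨f, by exact_mod_cast (mN f).2 (Or.inl hf), rest⟩
      have hc := core h.st h.tip (fun f hf => (hL ((mL f).1 hf)).1)
        (fun f hf => (Finset.mem_filter.1 hf).1) hdis cLF cNF tL' tN' hpL hpN hjq
      rcases hq' with ⟨a1, a2⟩ | ⟨a1, a2⟩
      · rw [hc.1 (a1 ▸ hBN) (a2 ▸ bLF), hκ0, eq_comm, decide_eq_true_eq]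
        exact a1
      · rw [hc.2 (a1 ▸ bLF) (a2 ▸ hBN), hκ0, eq_comm, decide_eq_false_iff_not, a1]
        intro hh
        have h1 : LF ⊆ U := fun f hf => (hL ((mL f).1 hf)).1
        exact Finset.disjoint_left.1 hdis bLF (hh ▸ hBN)
    have outL : Tc U ω L κ0 ∨ Tc U ω L (!κ0) := by
      rcases Bool.eq_or_eq_not (ω z) κ0 with hc | hc
      · exact Or.inl ⟨l, hl, z, hz, hlz, hc⟩
      · exact Or.inr ⟨l, hl, z, hz, hlz, hc⟩
    have outN : Tc U ω N κ0 ∨ Tc U ω N (!κ0) := by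
      rcases Bool.eq_or_eq_not (ω z') κ0 with hc | hc
      · exact Or.inl ⟨l', hl', z', hz', hlz', hc⟩
      · exact Or.inr ⟨l', hl', z', hz', hlz', hc⟩
    have hbad : Tc U ω L (!κ0) → Tc U ω N κ0 → False := by
      intro a1 a2
      have := hcore (!κ0) a1 (by rw [Bool.not_not]; exact a2)
      simp at this
    constructor
    · rcases outL with hh | hh
      · exact hh
      · rcases hboth κ0 with h5 | h5
        · exact h5
        · exact (hbad hh h5).elim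
    · rcases outN with hh | hh
      · rcases hboth (!κ0) with h5 | h5
        · exact (hbad h5 hh).elim
        · exact h5
      · exact hh
  refine ⟨!decide (pl q = C.pt (C.X (ph p) - 10 * t) y), ?_⟩
  rintro e P f he hP hbP hf ⟨g, hgU, hfg⟩
  -- the connected part of P
  set Q : Set Fc := {a | a ∈ P ∧ Jn P (sbase C p t y e) a} with hQ
  have hQP : Q ⊆ P := fun a ha => ha.1
  have cQ : ∀ a ∈ Q, Jn Q (sbase C p t y e) a := by
    rintro a ⟨_, ha⟩
    have key : ∀ a, Jn P (sbase C p t y e) a → Jn Q (sbase C p t y e) a := by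
      intro a ha
      induction ha with
      | refl => exact Jn.refl _
      | tail b1 b2 ih => exact ih.step ⟨b2.1, Jn.step b1 b2.1 b2.2⟩ b2.2
    exact key a ha
  have hfQ : f ∈ Q := ⟨Jn.mem hf hbP, hf⟩
  have bQ : sbase C p t y e ∈ Q := ⟨hbP, Jn.refl _⟩
  have cS : ∀ e : ℤ, ∀ a ∈ Sect C U p t y e, Jn (Sect C U p t y e) (sbase C p t y e) a := by
    rintro e a ⟨_, ha⟩
    have key : ∀ f, Jn (Anr C U p t y) (sbase C p t y e) f →
        Jn (Sect C U p t y e) (sbase C p t y e) f := by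
      intro f hf
      induction hf with
      | refl => exact Jn.refl _
      | tail b1 b2 ih => exact ih.step ⟨b2.1, Jn.step b1 b2.1 b2.2⟩ b2.2
    exact key a ha
  rcases he with rfl | rfl
  · obtain ⟨l, z, hl, hlz, hz⟩ := sect_out h (e := -1) (Or.inr rfl)
    have hbS : sbase C p t y (-1) ∈ Sect C U p t y (-1) := ⟨base_mem h (Or.inr rfl), Jn.refl _⟩
    obtain ⟨⟨f', hf', g', hg', hfg', hc⟩, _⟩ := main Q (Sect C U p t y (-1))
      (hQP.trans hP) (fun a ha => ha.1) cQ (cS (-1)) bQ hbS ⟨f, hfQ, g, hgU, hfg⟩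
      ⟨l, Jn.mem hl hbS, z, hz, hlz⟩
    refine ⟨f', hQP hf', g', hg', hfg', fun hh => absurd hh (by norm_num), fun _ => ?_⟩
    rw [Bool.not_not]; exact hc
  · obtain ⟨l, z, hl, hlz, hz⟩ := sect_out h (e := 1) (Or.inl rfl)
    have hbS : sbase C p t y 1 ∈ Sect C U p t y 1 := ⟨base_mem h (Or.inl rfl), Jn.refl _⟩
    obtain ⟨_, ⟨f', hf', g', hg', hfg', hc⟩⟩ := main (Sect C U p t y 1) Q
      (fun a ha => ha.1) (hQP.trans hP) (cS 1) cQ hbS bQ ⟨l, Jn.mem hl hbS, z, hz, hlz⟩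
      ⟨f, hfQ, g, hgU, hfg⟩
    exact ⟨f', hQP hf', g', hg', hfg', fun _ => hc, fun hh => absurd hh (by norm_num)⟩

end

end Pool.Agent.H98.Per
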