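import Pool.Agent.H98.Per.Lane
import Pool.Agent.H98.Per.T3b
import Pool.Agent.H98.Per.V4

set_option autoImplicit false

/-! MP_2e6055, module F5: COR4 (corridor data of the second template) and VIS4. -/

namespace Pool.Agent.H98.Per

open Pool.Agent.H7.UC Pool.Agent.H74.Tri Pool.Agent.H75.Perc Pool.Agent.H75.Lv Pool.Agent.H53.Per
open Pool.Agent.H55.Lane

theorem cor4 : COR4 := by
  classical
  intro C U ω p z0 v e t b r y h c hT _ hev
  obtain ⟨hray1, hray2, hcrL, hcrR⟩ := hev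
  have hE := h.ent
  have t2 := h.t2
  have tr := h.tr
  have te := h.te
  have re := h.re
  have hb := h.hb
  have hv1 := h.hv1
  have hv2 := h.hv2
  have hx0 := h.hx0
  have hy0 := h.hy0
  have zX : C.X z0 = 0 := by rw [← h.c]; exact C.X_c
  have zY : C.Y z0 = 0 := by rw [← h.c]; exact C.Y_c
  have hx := hE.x
  have y1 := hE.y1
  have y2 := hE.y2
  have y3 := hE.y3
  rw [zX, zero_add] at hx
  rw [zY, sub_zero] at y1 y3
  have hy3 : |y| < e - t := by omega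
  rw [abs_lt] at hy3
  rw [abs_le] at y1 y2 hv1 hv2
  have hbx : ∀ f : Fc, -e ≤ C.X f → C.X f ≤ e → -e ≤ C.Y f → C.Y f ≤ e → f ∈ U := by
    intro f h1 h2 h3 h4
    apply hE.box
    rw [C.mem_Bx, zX, zY, abs_le, abs_le]
    omega
  generalize hV1 : C.X v = V1 at *
  generalize hV2 : C.Y v = V2 at *
  generalize hX1 : C.X (ph p) = x1 at *
  generalize hX2 : C.Y (ph p) = x2 at *
  have mE : ∀ f : Fc, f ∈ Bx v r ↔ (V1 - r ≤ C.X f ∧ C.X f ≤ V1 + r) ∧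
      (V2 - r ≤ C.Y f ∧ C.Y f ≤ V2 + r) := by
    intro f
    rw [C.mem_Bx, hV1, hV2, abs_le, abs_le]
    constructor <;> intro hh <;> omega
  have mAn : ∀ f : Fc, f ∈ Anr C U p t y → (¬ (|C.X f - x1| ≤ 10 * t - 1 ∧
      |C.Y f - x2| ≤ 10 * t - 1)) ∧ x1 - 40 * t ≤ C.X f ∧ ¬ (C.Y f = y ∧ C.X f ≤ x1) := by
    rintro f ⟨_, h2, h3, h4⟩
    rw [C.mem_Bx, hX1, hX2] at h2 h3
    rw [hX1] at h4
    rw [abs_le, abs_le] at h2
    exact ⟨h3, by omega, h4⟩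
  -- the lower lane
  obtain ⟨β, bU, bc, bcon, bout, bin, bcr⟩ := lane hE (e := -1) (Or.inr rfl) (c := c)
    (s1 := ⟨true, b + 1, x1 - 1, y - t, y - 1⟩)
    (l := [⟨false, b + 1, b + t, -b - t, y - 1⟩, ⟨true, V1 - t, b + t, -b - t, -b - 1⟩,
      ⟨false, V1 - t, V1 - 1, -b - t, V2 - r - 1⟩]) rfl (Or.inr ⟨rfl, rfl, rfl⟩)
    (by simp only [hX1]; omega) (by simp only [hX1]; omega)
    (by
      simp only [List.isChain_cons_cons, List.isChain_singleton, and_true]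
      refine ⟨Or.inl ⟨rfl, rfl, ?_, ?_, ?_, ?_⟩, Or.inr ⟨rfl, rfl, ?_, ?_, ?_, ?_⟩,
        Or.inl ⟨rfl, rfl, ?_, ?_, ?_, ?_⟩⟩ <;> simp only <;> omega)
    (by
      intro s hs
      simp only [List.mem_cons, List.not_mem_nil, or_false] at hs
      rcases hs with rfl | rfl | rfl | rfl <;> simp only <;> omega)
    (by
      intro s hs f hf
      simp only [List.mem_cons, List.not_mem_nil, or_false] at hs
      rcases hs with rfl | rfl | rfl | rfl <;>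
      · obtain ⟨⟨f1, f2⟩, f3, f4⟩ := hf
        simp only at f1 f2 f3 f4
        apply hbx <;> omega)
    hray1 (by simpa only [L4] using hcrL)
    (by
      intro P f hP hs hj hg
      obtain ⟨f', h1, g, h2, h3, h4, _⟩ := hT (-1) P f (Or.inr rfl) hP hs hj hg
      exact ⟨f', h1, g, h2, h3, h4 rfl⟩)
  -- the upper lane
  obtain ⟨α, aU, ac, acon, aout, ain, acr⟩ := lane hE (e := 1) (Or.inl rfl) (c := !c)
    (s1 := ⟨true, b - t, x1 - 1, y + 1, y + t⟩)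
    (l := [⟨false, b - t, b - 1, -b + 1, y + t⟩, ⟨true, V1 + 1, b - 1, -b + 1, -b + t⟩,
      ⟨false, V1 + 1, V1 + t, -b + 1, V2 - r - 1⟩]) rfl (Or.inl ⟨rfl, rfl, rfl⟩)
    (by simp only [hX1]; omega) (by simp only [hX1]; omega)
    (by
      simp only [List.isChain_cons_cons, List.isChain_singleton, and_true]
      refine ⟨Or.inl ⟨rfl, rfl, ?_, ?_, ?_, ?_⟩, Or.inr ⟨rfl, rfl, ?_, ?_, ?_, ?_⟩,
        Or.inl ⟨rfl, rfl, ?_, ?_, ?_, ?_⟩⟩ <;> simp only <;> omega)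
    (by
      intro s hs
      simp only [List.mem_cons, List.not_mem_nil, or_false] at hs
      rcases hs with rfl | rfl | rfl | rfl <;> simp only <;> omega)
    (by
      intro s hs f hf
      simp only [List.mem_cons, List.not_mem_nil, or_false] at hs
      rcases hs with rfl | rfl | rfl | rfl <;>
      · obtain ⟨⟨f1, f2⟩, f3, f4⟩ := hf
        simp only at f1 f2 f3 f4
        apply hbx <;> omega)
    hray2 (by simpa only [R4] using hcrR)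
    (by
      intro P f hP hs hj hg
      obtain ⟨f', h1, g, h2, h3, _, h4⟩ := hT 1 P f (Or.inl rfl) hP hs hj hg
      exact ⟨f', h1, g, h2, h3, h4 rfl⟩)
  -- positions
  have bpos : ∀ f ∈ β, f ∈ Anr C U p t y ∨ ((b + 1 ≤ C.X f ∧ C.X f ≤ x1 - 1) ∧ (y - t ≤ C.Y f ∧ C.Y f ≤ y - 1))
      ∨ ((b + 1 ≤ C.X f ∧ C.X f ≤ b + t) ∧ (-b - t ≤ C.Y f ∧ C.Y f ≤ y - 1))
      ∨ ((V1 - t ≤ C.X f ∧ C.X f ≤ b + t) ∧ (-b - t ≤ C.Y f ∧ C.Y f ≤ -b - 1))
      ∨ ((V1 - t ≤ C.X f ∧ C.X f ≤ V1 - 1) ∧ (-b - t ≤ C.Y f ∧ C.Y f ≤ V2 - r - 1)) := by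
    intro f hf
    rcases bin f hf with h1 | ⟨s, hs, h1⟩
    · exact Or.inl h1.1
    · simp only [List.mem_cons, List.not_mem_nil, or_false] at hs
      rcases hs with rfl | rfl | rfl | rfl
      · exact Or.inr (Or.inl h1)
      · exact Or.inr (Or.inr (Or.inl h1))
      · exact Or.inr (Or.inr (Or.inr (Or.inl h1)))
      · exact Or.inr (Or.inr (Or.inr (Or.inr h1)))
  have apos : ∀ f ∈ α, f ∈ Anr C U p t y ∨ ((b - t ≤ C.X f ∧ C.X f ≤ x1 - 1) ∧ (y + 1 ≤ C.Y f ∧ C.Y f ≤ y + t))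
      ∨ ((b - t ≤ C.X f ∧ C.X f ≤ b - 1) ∧ (-b + 1 ≤ C.Y f ∧ C.Y f ≤ y + t))
      ∨ ((V1 + 1 ≤ C.X f ∧ C.X f ≤ b - 1) ∧ (-b + 1 ≤ C.Y f ∧ C.Y f ≤ -b + t))
      ∨ ((V1 + 1 ≤ C.X f ∧ C.X f ≤ V1 + t) ∧ (-b + 1 ≤ C.Y f ∧ C.Y f ≤ V2 - r - 1)) := by
    intro f hf
    rcases ain f hf with h1 | ⟨s, hs, h1⟩
    · exact Or.inl h1.1
    · simp only [List.mem_cons, List.not_mem_nil, or_false] at hs
      rcases hs with rfl | rfl | rfl | rfl
      · exact Or.inr (Or.inl h1)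
      · exact Or.inr (Or.inr (Or.inl h1))
      · exact Or.inr (Or.inr (Or.inr (Or.inl h1)))
      · exact Or.inr (Or.inr (Or.inr (Or.inr h1)))
  -- the last crossings
  obtain ⟨ub, wb, hub⟩ := bcr ⟨false, V1 - t, V1 - 1, -b - t, V2 - r - 1⟩ (by simp)
  obtain ⟨ua, wa, hua⟩ := acr ⟨false, V1 + 1, V1 + t, -b + 1, V2 - r - 1⟩ (by simp)
  have hwb := hub.mem
  have hwbY : C.Y wb = V2 - r - 1 := (hub.2.2.2.1 rfl).2
  obtain ⟨hwbβ, ⟨hwb1, hwb2⟩, _⟩ := hwb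
  have hwbβ' : wb ∈ β := by exact_mod_cast hwbβ
  simp only at hwb1 hwb2
  have hwa := hua.mem
  have hwaY : C.Y wa = V2 - r - 1 := (hua.2.2.2.1 rfl).2
  obtain ⟨hwaα, ⟨hwa1, hwa2⟩, _⟩ := hwa
  have hwaα' : wa ∈ α := by exact_mod_cast hwaα
  simp only at hwa1 hwa2
  -- the first face of α in the row below the target
  have hex : ∃ n : ℕ, C.pt (V1 + 1 + n) (V2 - r - 1) ∈ α := by
    refine ⟨(C.X wa - V1 - 1).toNat, ?_⟩
    have e1 : V1 + 1 + ((C.X wa - V1 - 1).toNat : ℤ) = C.X wa := by omega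
    rw [e1, ← hwaY, C.pt_XY]
    exact hwaα'
  set n := Nat.find hex with hn
  have hn1 : C.pt (V1 + 1 + n) (V2 - r - 1) ∈ α := Nat.find_spec hex
  have hn2 : ∀ i : ℤ, V1 + 1 ≤ i → i < V1 + 1 + n → C.pt i (V2 - r - 1) ∉ α := by
    intro i h1 h2 hi
    have h3 : (i - V1 - 1).toNat < n := by omega
    apply Nat.find_min hex h3
    have e1 : V1 + 1 + ((i - V1 - 1).toNat : ℤ) = i := by omega
    rw [e1]; exact hi
  have hn3 : (n : ℤ) ≤ t - 1 := by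
    have h3 : n ≤ (C.X wa - V1 - 1).toNat := by
      apply Nat.find_min' hex
      have e1 : V1 + 1 + ((C.X wa - V1 - 1).toNat : ℤ) = C.X wa := by omega
      rw [e1, ← hwaY, C.pt_XY]
      exact hwaα'
    omega
  generalize (n : ℤ) = n' at *
  have hn0 : 0 ≤ n' := by
    by_contra hneg
    have := hn1
    rcases apos _ this with h1 | h1 | h1 | h1 | h1
    · have := (mAn _ h1).2.1
      rw [Ch.X_pt] at this
      omega
    · simp only [Ch.X_pt, Ch.Y_pt] at h1; omega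
    · simp only [Ch.X_pt, Ch.Y_pt] at h1; omega
    · simp only [Ch.X_pt, Ch.Y_pt] at h1; omega
    · simp only [Ch.X_pt, Ch.Y_pt] at h1; omega
  -- the end set is disjoint from the lanes
  have bE : ∀ f ∈ β, f ∉ Bx v r := by
    intro f hf hfE
    rw [mE] at hfE
    rcases bpos f hf with h1 | h1 | h1 | h1 | h1
    · have := (mAn f h1).2.1; omega
    all_goals omega
  have aE : ∀ f ∈ α, f ∉ Bx v r := by
    intro f hf hfE
    rw [mE] at hfE
    rcases apos f hf with h1 | h1 | h1 | h1 | h1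
    · have := (mAn f h1).2.1; omega
    all_goals omega
  have ab : Disjoint β α := by
    rw [Finset.disjoint_left]
    intro f h1 h2
    have h3 := bc f h1
    rw [ac f h2] at h3
    cases c <;> simp at h3
  -- the spine
  set D : Finset Fc := U \ (β ∪ α ∪ Bx v r) with hD
  have mD : ∀ f, f ∈ D ↔ f ∈ U ∧ f ∉ β ∧ f ∉ α ∧ f ∉ Bx v r := by
    intro f
    rw [hD, Finset.mem_sdiff, Finset.mem_union, Finset.mem_union]
    tauto
  have spine : ∀ i j : ℤ, ((i = x1 ∧ (y ≤ j ∧ j ≤ x2 ∨ x2 ≤ j ∧ j ≤ y)) ∨ (j = y ∧ b ≤ i ∧ i ≤ x1) ∨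
      (i = b ∧ -b ≤ j ∧ j ≤ y) ∨ (j = -b ∧ V1 ≤ i ∧ i ≤ b) ∨
      (i = V1 ∧ -b ≤ j ∧ j ≤ V2 - r - 1)) → C.pt i j ∈ D := by
    intro i j hij
    rw [mD]
    have hA : C.pt i j ∉ Anr C U p t y := by
      intro hh
      obtain ⟨h1, h2, h3⟩ := mAn _ hh
      rw [Ch.X_pt] at h1 h2 h3
      rw [Ch.Y_pt] at h1 h3
      rw [abs_le, abs_le] at h1
      omega
    refine ⟨?_, ?_, ?_, ?_⟩
    · apply hbx <;> simp only [Ch.X_pt, Ch.Y_pt] <;> omega
    · intro hh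
      rcases bpos _ hh with h1 | h1 | h1 | h1 | h1
      · exact hA h1
      all_goals simp only [Ch.X_pt, Ch.Y_pt] at h1; omega
    · intro hh
      rcases apos _ hh with h1 | h1 | h1 | h1 | h1
      · exact hA h1
      all_goals simp only [Ch.X_pt, Ch.Y_pt] at h1; omega
    · rw [mE, Ch.X_pt, Ch.Y_pt]
      omega
  have spine2 : ∀ i : ℤ, V1 ≤ i → i ≤ V1 + n' → C.pt i (V2 - r - 1) ∈ D := by
    intro i h1 h2
    rcases h1.eq_or_lt with h3 | h3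
    · exact spine _ _ (Or.inr (Or.inr (Or.inr (Or.inr ⟨h3.symm, by omega, le_rfl⟩))))
    · rw [mD]
      refine ⟨?_, ?_, hn2 i (by omega) (by omega), ?_⟩
      · apply hbx <;> simp only [Ch.X_pt, Ch.Y_pt] <;> omega
      · intro hh
        rcases bpos _ hh with h5 | h5 | h5 | h5 | h5
        · have := (mAn _ h5).2.1
          rw [Ch.X_pt] at this
          omega
        all_goals simp only [Ch.X_pt, Ch.Y_pt] at h5; omega
      · rw [mE, Ch.X_pt, Ch.Y_pt]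
        omega
  have hp0 : C.pt x1 x2 = ph p := by rw [← hX1, ← hX2, C.pt_XY]
  have hpD : ph p ∈ D := by
    rw [← hp0]
    apply spine
    left
    refine ⟨rfl, ?_⟩
    omega
  have cD : ∀ {i j}, C.pt i j ∈ D → C.pt i j ∈ (↑D : Set Fc) := fun hh => by exact_mod_cast hh
  have path : Jn (↑D : Set Fc) (ph p) (C.pt (V1 + n') (V2 - r - 1)) := by
    have p1 : Jn (↑D : Set Fc) (C.pt x1 x2) (C.pt x1 y) := C.jn_col fun k h1 h2 =>
      cD (spine _ _ (Or.inl ⟨rfl, by omega⟩))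
    have p2 : Jn (↑D : Set Fc) (C.pt x1 y) (C.pt b y) := C.jn_row fun k h1 h2 =>
      cD (spine _ _ (Or.inr (Or.inl ⟨rfl, by omega, by omega⟩)))
    have p3 : Jn (↑D : Set Fc) (C.pt b y) (C.pt b (-b)) := C.jn_col fun k h1 h2 =>
      cD (spine _ _ (Or.inr (Or.inr (Or.inl ⟨rfl, by omega, by omega⟩))))
    have p4 : Jn (↑D : Set Fc) (C.pt b (-b)) (C.pt V1 (-b)) := C.jn_row fun k h1 h2 =>
      cD (spine _ _ (Or.inr (Or.inr (Or.inr (Or.inl ⟨rfl, by omega, by omega⟩)))))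
    have p5 : Jn (↑D : Set Fc) (C.pt V1 (-b)) (C.pt V1 (V2 - r - 1)) := C.jn_col fun k h1 h2 =>
      cD (spine _ _ (Or.inr (Or.inr (Or.inr (Or.inr ⟨rfl, by omega, by omega⟩)))))
    have p6 : Jn (↑D : Set Fc) (C.pt V1 (V2 - r - 1)) (C.pt (V1 + n') (V2 - r - 1)) :=
      C.jn_row fun k h1 h2 => cD (spine2 _ (by omega) (by omega))
    rw [hp0] at p1
    exact ((((p1.trans p2).trans p3).trans p4).trans p5).trans p6
  -- the vertex
  obtain ⟨g1, hg1, hTri⟩ : ∃ g1, g1 ∈ Bx v r ∧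
      Tri3 (C.pt (V1 + n') (V2 - r - 1)) (C.pt (V1 + 1 + n') (V2 - r - 1)) g1 := by
    rcases C.hs with hs | hs
    · refine ⟨C.pt (V1 + n') (V2 - r), ?_, ?_, ?_, ?_⟩
      · rw [mE, Ch.X_pt, Ch.Y_pt]; omega
      all_goals rw [C.adj_pt]; unfold adC; omega
    · refine ⟨C.pt (V1 + 1 + n') (V2 - r), ?_, ?_, ?_, ?_⟩
      · rw [mE, Ch.X_pt, Ch.Y_pt]; omega
      all_goals rw [C.adj_pt]; unfold adC; omega
  refine ⟨β, α, C.pt (V1 + n') (V2 - r - 1), C.pt (V1 + 1 + n') (V2 - r - 1), g1, ?_⟩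
  refine ⟨hE.st, hE.tip, bU, aU, ?_, ab, ?_, ?_, bc, ac, bcon, acon, ?_, bout, aout, ?_, hn1, hg1,
    hTri, path, hpD⟩
  · intro f hf
    rw [mE] at hf
    apply hbx <;> omega
  · rw [Finset.disjoint_left]; exact bE
  · rw [Finset.disjoint_left]; exact aE
  · intro f hf g hg
    rw [mE] at hf hg
    refine C.jn_rect (a := V1 - r) (b := V1 + r) (c := V2 - r) (d := V2 + r) ?_ ?_ ?_
    · rintro a ⟨a1, a2, a3, a4⟩
      have : a ∈ Bx v r := (mE a).2 ⟨⟨a1, a2⟩, a3, a4⟩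
      exact_mod_cast this
    · exact ⟨hf.1.1, hf.1.2, hf.2.1, hf.2.2⟩
    · exact ⟨hg.1.1, hg.1.2, hg.2.1, hg.2.2⟩
  · refine ⟨wb, hwbβ', C.pt (C.X wb) (V2 - r), ?_, ?_⟩
    · rw [mE, Ch.X_pt, Ch.Y_pt]; omega
    · apply C.unit_y
      · left; rw [Ch.Y_pt, hwbY]; ring
      · rw [Ch.X_pt]

/-- VIS4 from the probability of the event and CONF1. -/
theorem vis4 (hP : EVP4) (hC : CONF1) : VIS4 := by
  intro K
  obtain ⟨pK, hpK, t0, H⟩ := hP K
  refine ⟨pK, hpK, t0, ?_⟩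
  intro C U ω p z0 v e t b r y h ht he
  obtain ⟨c, hc⟩ := t3B C U ω p z0 e t y h.ent
  refine (H C U ω p z0 v e t b r y h ht he c).trans (Pr_mono ?_)
  intro w _ hw
  set Ω := mixc U w ω with hΩ
  have hoff : ∀ f, f ∉ U → Ω f = ω f := by
    intro f hf
    rw [hΩ]
    unfold mixc
    rw [if_neg hf]
  have hst : St U Ω := st_congr h.ent.st hoff
  have htip : IsTip U Ω p := by
    obtain ⟨h1, h2, h3, h4, h5⟩ := h.ent.tip
    exact ⟨h1, h2, h3, by rw [hoff _ h2]; exact h4, by rw [hoff _ h3]; exact h5⟩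
  have hTB : TB U Ω z0 (Bx (ph p) (40 * t)) := by
    intro c'
    obtain ⟨f, g, h1, h2, h3, h4⟩ := h.ent.tb c'
    exact ⟨f, g, h1, h2, h3, by rw [hoff _ h2]; exact h4⟩
  have hEnt : Ent C U Ω p z0 e t y := ⟨hst, htip, h.ent.box, h.ent.t1, h.ent.tR, h.ent.x, h.ent.y1,
    h.ent.y2, h.ent.y3, hTB⟩
  have hSit : Sit4 C U Ω p z0 v e t b r y := ⟨hEnt, h.c, h.t2, h.tr, h.te, h.re, h.hb, h.hv1, h.hv2,
    h.hx0, h.hy0⟩
  obtain ⟨β, α, f1, a1, g1, hcor⟩ := cor4 C U Ω p z0 v e t b r y hSit c (by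
    intro e' P f he' hPA hb hj hg
    obtain ⟨f', k1, g, k2, k3, k4, k5⟩ := hc e' P f he' hPA hb hj hg
    exact ⟨f', k1, g, k2, k3, fun hh => by rw [hoff g k2]; exact k4 hh,
      fun hh => by rw [hoff g k2]; exact k5 hh⟩) (t3A C U Ω p z0 e t y hEnt) hw
  obtain ⟨i, ⟨⟨f, hf, hask⟩, _⟩, _⟩ := hC U Ω p c β α (Bx v r) f1 a1 g1 hcor
  exact ⟨p, i, f, h.ent.tip, hf, hask⟩

end Pool.Agent.H98.Per
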