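import Pool.Agent.H74.Tri.Hex

set_option autoImplicit false

/-! MP_2e6055, module JT: parity of closed walks of faces. -/

namespace Pool.Agent.H98.Per

open Pool.Agent.H7.UC Pool.Agent.H74.Tri

/-- walk of faces -/
structure IsWalk (W : ℕ → Fc) (L : ℕ) : Prop where
  adj : ∀ i < L, adjF (W i) (W (i + 1))

/-- closed walk of faces -/
structure IsCl (W : ℕ → Fc) (L : ℕ) : Prop extends IsWalk W L where
  close : W L = W 0

/-- sum over the steps of a walk -/
def wsum (F : Fc → Fc → ZMod 2) (W : ℕ → Fc) (L : ℕ) : ZMod 2 :=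
  ∑ i ∈ Finset.range L, F (W i) (W (i + 1))

/-- steps which pass to the right of the vertex -/
def cst : Vx → Fc → Fc → ZMod 2
  | (i, j, false), a, b => if (a.2 = j ∧ b.2 = j + 1 ∧ i < a.1) ∨ (b.2 = j ∧ a.2 = j + 1 ∧ i < b.1)
      then 1 else 0
  | (i, j, true), a, b => if (a.2 = j ∧ b.2 = j + 1 ∧ (i + 1 < a.1 ∨ (a.1 = i + 1 ∧ b.1 = i + 1))) ∨
      (b.2 = j ∧ a.2 = j + 1 ∧ (i + 1 < b.1 ∨ (b.1 = i + 1 ∧ a.1 = i + 1))) then 1 else 0

/-- steps between `x` and `y` -/
def mst (x y a b : Fc) : ZMod 2 := if (a = x ∧ b = y) ∨ (a = y ∧ b = x) then 1 else 0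

/-- parity of the walk around a vertex -/
def nW (W : ℕ → Fc) (L : ℕ) (v : Vx) : ZMod 2 := wsum (cst v) W L

/-- number of steps between `x` and `y`, mod 2 -/
def mW (W : ℕ → Fc) (L : ℕ) (x y : Fc) : ZMod 2 := wsum (mst x y) W L

/-- parity of the walk around a face (for faces off the walk) -/
def NW (W : ℕ → Fc) (L : ℕ) (f : Fc) : ZMod 2 := nW W L (f.1, f.2, false)

theorem mst_comm (x y a b : Fc) : mst x y a b = mst y x a b := by
  unfold mst
  congr 1
  exact propext or_comm

theorem mst_swap (x y a b : Fc) : mst x y a b = mst x y b a := by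
  unfold mst
  congr 1
  exact propext ⟨fun h => h.elim (fun h => Or.inr ⟨h.2, h.1⟩) (fun h => Or.inl ⟨h.2, h.1⟩),
    fun h => h.elim (fun h => Or.inr ⟨h.2, h.1⟩) (fun h => Or.inl ⟨h.2, h.1⟩)⟩

theorem cst_swap (v : Vx) (a b : Fc) : cst v a b = cst v b a := by
  obtain ⟨i, j, t⟩ := v
  cases t
  · simp only [cst]
    congr 1
    exact propext or_comm
  · simp only [cst]
    congr 1
    exact propext or_comm

theorem mW_comm (W : ℕ → Fc) (L : ℕ) (x y : Fc) : mW W L x y = mW W L y x := by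
  unfold mW wsum
  exact Finset.sum_congr rfl fun i _ => mst_comm _ _ _ _

theorem wsum_add (F G : Fc → Fc → ZMod 2) (W : ℕ → Fc) (L : ℕ) :
    wsum F W L + wsum G W L = wsum (fun a b => F a b + G a b) W L := by
  unfold wsum
  rw [← Finset.sum_add_distrib]

theorem wsum_congr {F G : Fc → Fc → ZMod 2} {W : ℕ → Fc} {L : ℕ}
    (h : ∀ i < L, F (W i) (W (i + 1)) = G (W i) (W (i + 1))) : wsum F W L = wsum G W L := by
  unfold wsum
  exact Finset.sum_congr rfl fun i hi => h i (Finset.mem_range.1 hi)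

/-- a closed walk crosses the boundary of every set an even number of times -/
theorem wsum_ind {W : ℕ → Fc} {L : ℕ} (hc : W L = W 0) (g : Fc → ZMod 2) :
    wsum (fun a b => g a + g b) W L = 0 := by
  have h : ∀ L, wsum (fun a b => g a + g b) W L = g (W 0) + g (W L) := by
    intro L
    induction L with
    | zero => unfold wsum; rw [two_zmod]; simp
    | succ L ih =>
      unfold wsum at ih ⊢
      rw [Finset.sum_range_succ, ih]
      have := two_zmod (g (W L))
      linear_combination this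
  rw [h, hc, two_zmod]

theorem step1 (i j : ℤ) {a b : Fc} (h : adjF a b) :
    cst (i, j, false) a b + cst (i, j, true) a b = mst (i + 1, j) (i, j + 1) a b := by
  rw [adjF_iff] at h
  obtain ⟨a1, a2⟩ := a
  obtain ⟨b1, b2⟩ := b
  simp only at h
  simp only [cst, mst, Prod.mk.injEq]
  split_ifs <;> first | rfl | (exfalso; omega)

theorem step2 (i j : ℤ) {a b : Fc} (h : adjF a b) :
    cst (i, j, false) a b + cst (i - 1, j, true) a b = mst (i, j + 1) (i, j) a b := by
  rw [adjF_iff] at h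
  obtain ⟨a1, a2⟩ := a
  obtain ⟨b1, b2⟩ := b
  simp only at h
  simp only [cst, mst, Prod.mk.injEq]
  split_ifs <;> first | rfl | (exfalso; omega)

/-- right half row -/
def hr (i j : ℤ) (a : Fc) : ZMod 2 := if a.2 = j ∧ i < a.1 then 1 else 0

theorem step0 (i j : ℤ) {a b : Fc} (h : adjF a b) :
    cst (i, j, false) a b + cst (i, j - 1, true) a b =
      mst (i, j) (i + 1, j) a b + (hr i j a + hr i j b) := by
  rw [adjF_iff] at h
  obtain ⟨a1, a2⟩ := a
  obtain ⟨b1, b2⟩ := b
  simp only at h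
  simp only [cst, mst, hr, Prod.mk.injEq]
  split_ifs <;> first | rfl | (exfalso; omega)

/-- **master identity** -/
theorem master {W : ℕ → Fc} {L : ℕ} (hW : IsCl W L) (v : Vx) (k : Fin 3) :
    nW W L v + nW W L (nb v k) = mW W L (fc v (k + 1)) (fc v (k + 2)) := by
  have up : ∀ (i j : ℤ) (k : Fin 3), nW W L (i, j, false) + nW W L (nb (i, j, false) k) =
      mW W L (fc (i, j, false) (k + 1)) (fc (i, j, false) (k + 2)) := by
    intro i j k
    fin_cases k
    · show nW W L (i, j, false) + nW W L (i, j - 1, true) = mW W L (i, j) (i + 1, j)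
      unfold nW mW
      rw [wsum_add, wsum_congr (G := fun a b => mst (i, j) (i + 1, j) a b + (hr i j a + hr i j b))
        (fun n hn => step0 i j (hW.adj n hn)), ← wsum_add, wsum_ind hW.close, add_zero]
    · show nW W L (i, j, false) + nW W L (i, j, true) = mW W L (i + 1, j) (i, j + 1)
      unfold nW mW
      rw [wsum_add]
      exact wsum_congr (fun n hn => step1 i j (hW.adj n hn))
    · show nW W L (i, j, false) + nW W L (i - 1, j, true) = mW W L (i, j + 1) (i, j)
      unfold nW mW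
      rw [wsum_add]
      exact wsum_congr (fun n hn => step2 i j (hW.adj n hn))
  obtain ⟨i, j, b⟩ := v
  cases b
  · exact up i j k
  · -- the other end is an up vertex
    have h2 : (nb (i, j, true) k).2.2 = false := by fin_cases k <;> rfl
    obtain ⟨⟨i', j', b'⟩, hw⟩ : ∃ w, nb (i, j, true) k = w := ⟨_, rfl⟩
    rw [hw] at h2
    simp only at h2
    subst h2
    have h3 := up i' j' k
    have h4 : nb (i', j', false) k = (i, j, true) := by rw [← hw, nb_nb]
    rw [h4, ← hw, fc_nb1, fc_nb2] at h3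
    rw [hw] at h3
    rw [hw, add_comm, h3, mW_comm]

/-- the walk visits `f` -/
def vis (W : ℕ → Fc) (L : ℕ) (f : Fc) : Prop := ∃ i ≤ L, W i = f

theorem mW_off {W : ℕ → Fc} {L : ℕ} {x : Fc} (y : Fc) (hx : ¬ vis W L x) : mW W L x y = 0 := by
  unfold mW wsum
  apply Finset.sum_eq_zero
  intro i hi
  rw [Finset.mem_range] at hi
  unfold mst
  rw [if_neg]
  rintro (h | h)
  · exact hx ⟨i, hi.le, h.1⟩
  · exact hx ⟨i + 1, hi, h.2⟩

/-- around a face off the walk the parity is constant -/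
theorem nW_vtx {W : ℕ → Fc} {L : ℕ} (hW : IsCl W L) {f : Fc} (hf : ¬ vis W L f) (m : Fin 6) :
    nW W L (vtx f m) = NW W L f := by
  have h1 : ∀ m : Fin 6, nW W L (vtx f m) = nW W L (vtx f (m + 1)) := by
    intro m
    have h := master hW (vtx f m) (kx m + 1)
    rw [vtx_nb] at h
    have e : kx m + 1 + 2 = kx m := by
      have : ∀ k : Fin 3, k + 1 + 2 = k := by decide
      exact this _
    rw [e, (vtx_fc f m).1, mW_comm, mW_off _ hf] at h
    have h2 := two_zmod (nW W L (vtx f (m + 1)))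
    linear_combination h - h2
  have h0 : nW W L (vtx f 0) = NW W L f := rfl
  have a0 := h1 0
  have a1 := h1 1
  have a2 := h1 2
  have a3 := h1 3
  have a4 := h1 4
  fin_cases m
  · exact h0
  · exact a0.symm.trans h0
  · exact a1.symm.trans (a0.symm.trans h0)
  · exact a2.symm.trans (a1.symm.trans (a0.symm.trans h0))
  · exact a3.symm.trans (a2.symm.trans (a1.symm.trans (a0.symm.trans h0)))
  · exact a4.symm.trans (a3.symm.trans (a2.symm.trans (a1.symm.trans (a0.symm.trans h0))))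

theorem nW_fc {W : ℕ → Fc} {L : ℕ} (hW : IsCl W L) {v : Vx} {k : Fin 3}
    (hf : ¬ vis W L (fc v k)) : nW W L v = NW W L (fc v k) := by
  obtain ⟨m, h, _⟩ := eq_vtx v k
  have := nW_vtx hW hf m
  rw [← h] at this
  exact this

/-- adjacent faces off the walk -/
theorem NW_adj {W : ℕ → Fc} {L : ℕ} (hW : IsCl W L) {f g : Fc} (h : adjF f g)
    (hf : ¬ vis W L f) (hg : ¬ vis W L g) : NW W L f = NW W L g := by
  obtain ⟨m, rfl⟩ := adjF_nbr h
  have h1 := (vtx_fc f m).2.1
  rw [← nW_vtx hW hf m, ← h1]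
  apply nW_fc hW
  rw [h1]; exact hg

/-- faces joined off the walk -/
theorem NW_jn {W : ℕ → Fc} {L : ℕ} (hW : IsCl W L) {f g : Fc} {S : Set Fc}
    (hS : ∀ a ∈ S, ¬ vis W L a) (hf : ¬ vis W L f) (h : Jn S f g) : NW W L f = NW W L g := by
  have key : ∀ g, Jn S f g → ¬ vis W L g ∧ NW W L f = NW W L g := by
    intro g h
    induction h with
    | refl => exact ⟨hf, rfl⟩
    | tail _ h2 ih => exact ⟨hS _ h2.1, ih.2.trans (NW_adj hW h2.2 ih.1 (hS _ h2.1))⟩
  exact (key g h).2

/-- the parity vanishes to the right of the walk -/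
theorem NW_far {W : ℕ → Fc} {L : ℕ} {f : Fc} (h : ∀ i ≤ L, (W i).1 ≤ f.1) : NW W L f = 0 := by
  unfold NW nW wsum
  apply Finset.sum_eq_zero
  intro i hi
  rw [Finset.mem_range] at hi
  have h1 := h i hi.le
  have h2 := h (i + 1) hi
  simp only [cst]
  rw [if_neg]
  omega

theorem exists_far (W : ℕ → Fc) (L : ℕ) (U : Finset Fc) : ∃ f, f ∉ U ∧ NW W L f = 0 := by
  classical
  obtain ⟨M, hM⟩ : ∃ M : ℤ, (∀ i ≤ L, (W i).1 ≤ M) ∧ ∀ f ∈ U, f.1 < M := by
    refine ⟨∑ i ∈ Finset.range (L + 1), |(W i).1| + ∑ f ∈ U, |f.1| + 1, ?_, ?_⟩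
    · intro i hi
      have h1 : |(W i).1| ≤ ∑ i ∈ Finset.range (L + 1), |(W i).1| :=
        Finset.single_le_sum (f := fun i => |(W i).1|) (fun _ _ => abs_nonneg _)
          (Finset.mem_range.2 (by omega))
      have h2 : 0 ≤ ∑ f ∈ U, |f.1| := Finset.sum_nonneg fun _ _ => abs_nonneg _
      have h3 := le_abs_self (W i).1
      omega
    · intro f hf
      have h1 : |f.1| ≤ ∑ f ∈ U, |f.1| :=
        Finset.single_le_sum (f := fun f : Fc => |f.1|) (fun _ _ => abs_nonneg _) hf
      have h2 : 0 ≤ ∑ i ∈ Finset.range (L + 1), |(W i).1| :=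
        Finset.sum_nonneg fun _ _ => abs_nonneg _
      have h3 := le_abs_self f.1
      omega
  refine ⟨(M, 0), ?_, NW_far hM.1⟩
  intro h
  exact absurd (hM.2 _ h) (lt_irrefl _)

/-- **a closed walk inside a domain has parity zero off the domain** -/
theorem NW_off {U : Finset Fc} (hU : IsDom U) {W : ℕ → Fc} {L : ℕ} (hW : IsCl W L)
    (hWU : ∀ i ≤ L, W i ∈ U) {f : Fc} (hf : f ∉ U) : NW W L f = 0 := by
  obtain ⟨g, hg, h0⟩ := exists_far W L U
  have hv : ∀ a, a ∉ U → ¬ vis W L a := by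
    rintro a ha ⟨i, hi, rfl⟩
    exact ha (hWU i hi)
  rw [← h0]
  exact NW_jn hW (S := {a | a ∉ U}) (fun a ha => hv a ha) (hv f hf) (hU.cconn f hf g hg)

/-- **crossing an edge of the walk**: `x, y` adjacent, common neighbours `fc v k`, `fc (nb v k) k` -/
theorem NW_cross {W : ℕ → Fc} {L : ℕ} (hW : IsCl W L) (v : Vx) (k : Fin 3)
    (h1 : ¬ vis W L (fc v k)) (h2 : ¬ vis W L (fc (nb v k) k)) :
    NW W L (fc v k) + NW W L (fc (nb v k) k) = mW W L (fc v (k + 1)) (fc v (k + 2)) := by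
  rw [← nW_fc hW h1, ← nW_fc hW h2]
  exact master hW v k

/-- the same for a horizontal edge -/
theorem NW_cross_row {W : ℕ → Fc} {L : ℕ} (hW : IsCl W L) (i j : ℤ)
    (h1 : ¬ vis W L (i, j + 1)) (h2 : ¬ vis W L (i + 1, j - 1)) :
    NW W L (i, j + 1) + NW W L (i + 1, j - 1) = mW W L (i, j) (i + 1, j) :=
  NW_cross hW (i, j, false) 0 h1 h2

/-- the same for a column edge -/
theorem NW_cross_col {W : ℕ → Fc} {L : ℕ} (hW : IsCl W L) (i j : ℤ)
    (h1 : ¬ vis W L (i + 1, j)) (h2 : ¬ vis W L (i - 1, j + 1)) :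
    NW W L (i + 1, j) + NW W L (i - 1, j + 1) = mW W L (i, j + 1) (i, j) := by
  have h := NW_cross hW (i, j, false) 2 h1 (by
    show ¬ vis W L (fc (i - 1, j, true) 2)
    exact h2)
  exact h

/-! ## Concatenation, walks from paths -/

/-- concatenation -/
def cat (W : ℕ → Fc) (L : ℕ) (V : ℕ → Fc) : ℕ → Fc := fun i => if i ≤ L then W i else V (i - L)

theorem cat_left {W V : ℕ → Fc} {L i : ℕ} (h : i ≤ L) : cat W L V i = W i := if_pos h

theorem cat_right {W V : ℕ → Fc} {L : ℕ} (hc : W L = V 0) (i : ℕ) : cat W L V (L + i) = V i := by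
  unfold cat
  rcases Nat.eq_zero_or_pos i with h | h
  · subst h
    rw [if_pos (by omega), add_zero, hc]
  · rw [if_neg (by omega)]
    congr 1
    omega

theorem cat_walk {W V : ℕ → Fc} {L K : ℕ} (hW : IsWalk W L) (hV : IsWalk V K) (hc : W L = V 0) :
    IsWalk (cat W L V) (L + K) := by
  constructor
  intro i hi
  rcases Nat.lt_or_ge i L with h | h
  · rw [cat_left h.le, cat_left (by omega)]
    exact hW.adj i h
  · obtain ⟨n, rfl⟩ : ∃ n, i = L + n := ⟨i - L, by omega⟩
    rw [cat_right hc, add_assoc, cat_right hc]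
    exact hV.adj n (by omega)

theorem cat_vis {W V : ℕ → Fc} {L K : ℕ} (hc : W L = V 0) {f : Fc}
    (h : vis (cat W L V) (L + K) f) : vis W L f ∨ vis V K f := by
  obtain ⟨i, hi, rfl⟩ := h
  rcases Nat.le_total i L with h | h
  · left; exact ⟨i, h, (cat_left h).symm⟩
  · right
    obtain ⟨n, rfl⟩ : ∃ n, i = L + n := ⟨i - L, by omega⟩
    exact ⟨n, by omega, (cat_right hc n).symm⟩

theorem cat_wsum (F : Fc → Fc → ZMod 2) {W V : ℕ → Fc} {L : ℕ} (K : ℕ) (hc : W L = V 0) :
    wsum F (cat W L V) (L + K) = wsum F W L + wsum F V K := by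
  unfold wsum
  rw [Finset.sum_range_add]
  congr 1
  · apply Finset.sum_congr rfl
    intro i hi
    rw [Finset.mem_range] at hi
    rw [cat_left hi.le, cat_left (by omega)]
  · apply Finset.sum_congr rfl
    intro i _
    rw [cat_right hc, add_assoc, cat_right hc]

/-- a path of faces as a walk -/
theorem walk_of_jn {S : Set Fc} {f g : Fc} (h : Jn S f g) (hf : f ∈ S) : ∃ (W : ℕ → Fc) (L : ℕ),
    IsWalk W L ∧ W 0 = f ∧ W L = g ∧ ∀ a, vis W L a → a ∈ S := by
  induction h with
  | refl =>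
    refine ⟨fun _ => f, 0, ⟨fun i hi => by omega⟩, rfl, rfl, ?_⟩
    rintro a ⟨i, _, rfl⟩
    exact hf
  | @tail b c _ h2 ih =>
    obtain ⟨W, L, h3, h4, h5, h6⟩ := ih
    refine ⟨fun i => if i ≤ L then W i else c, L + 1, ⟨?_⟩, ?_, ?_, ?_⟩
    · intro i hi
      rcases Nat.lt_or_ge i L with h | h
      · simp only [if_pos h.le, if_pos (Nat.succ_le_of_lt h)]
        exact h3.adj i h
      · have : i = L := by omega
        subst this
        simp only [le_refl, if_true, if_neg (Nat.not_succ_le_self i), h5]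
        exact h2.2
    · simp only [Nat.zero_le, if_true]; exact h4
    · simp only [if_neg (Nat.not_succ_le_self L)]
    · rintro a ⟨i, hi, rfl⟩
      by_cases h : i ≤ L
      · simp only [if_pos h]
        exact h6 _ ⟨i, h, rfl⟩
      · simp only [if_neg h]
        exact h2.1

/-- the reversed walk -/
theorem rev_walk {W : ℕ → Fc} {L : ℕ} (hW : IsWalk W L) : IsWalk (fun i => W (L - i)) L := by
  constructor
  intro i hi
  have h := hW.adj (L - (i + 1)) (by omega)
  have e : L - (i + 1) + 1 = L - i := by omega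
  rw [e] at h
  exact adjF_symm h

theorem rev_wsum {F : Fc → Fc → ZMod 2} (hF : ∀ a b, F a b = F b a) (W : ℕ → Fc) (L : ℕ) :
    wsum F (fun i => W (L - i)) L = wsum F W L := by
  unfold wsum
  rw [← Finset.sum_range_reflect]
  apply Finset.sum_congr rfl
  intro i hi
  rw [Finset.mem_range] at hi
  have e1 : L - (L - 1 - i) = i + 1 := by omega
  have e2 : L - (L - 1 - i + 1) = i := by omega
  show F (W (L - (L - 1 - i))) (W (L - (L - 1 - i + 1))) = F (W i) (W (i + 1))
  rw [e1, e2, hF]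

end Pool.Agent.H98.Per
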