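import Pool.Agent.H98.Per.JT

set_option autoImplicit false

/-! MP_2e6055, module F5 (T3b, T3c), geometry: the row segment across the annulus around `x`. -/

namespace Pool.Agent.H98.Per

open Pool.Agent.H7.UC Pool.Agent.H74.Tri

/-- walk in `S` from `f` to `g` with total weight `c` -/
def WkS (S : Set Fc) (F : Fc → Fc → ZMod 2) (f g : Fc) (c : ZMod 2) : Prop :=
  ∃ (W : ℕ → Fc) (L : ℕ), IsWalk W L ∧ W 0 = f ∧ W L = g ∧ (∀ a, vis W L a → a ∈ S) ∧
    wsum F W L = c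

theorem WkS.trans {S : Set Fc} {F : Fc → Fc → ZMod 2} {f g h : Fc} {c d : ZMod 2}
    (h1 : WkS S F f g c) (h2 : WkS S F g h d) : WkS S F f h (c + d) := by
  obtain ⟨W, L, a1, a2, a3, a4, a5⟩ := h1
  obtain ⟨V, K, b1, b2, b3, b4, b5⟩ := h2
  have hc : W L = V 0 := a3.trans b2.symm
  refine ⟨cat W L V, L + K, cat_walk a1 b1 hc, ?_, ?_, ?_, ?_⟩
  · rw [cat_left (Nat.zero_le _), a2]
  · rw [cat_right hc, b3]
  · intro a ha
    rcases cat_vis hc ha with h | h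
    · exact a4 a h
    · exact b4 a h
  · rw [cat_wsum F K hc, a5, b5]

theorem WkS.single {S : Set Fc} (F : Fc → Fc → ZMod 2) {f g : Fc} (hf : f ∈ S) (hg : g ∈ S)
    (h : adjF f g) : WkS S F f g (F f g) := by
  refine ⟨fun i => if i = 0 then f else g, 1, ⟨?_⟩, rfl, rfl, ?_, ?_⟩
  · intro i hi
    obtain rfl : i = 0 := by omega
    exact h
  · rintro a ⟨i, hi, rfl⟩
    by_cases h0 : i = 0
    · simp only [h0, if_true]; exact hf
    · simp only [h0, if_false]; exact hg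
  · unfold wsum
    simp

/-- a path along which the weight vanishes -/
theorem WkS.of_jn {S T : Set Fc} (F : Fc → Fc → ZMod 2) {f g : Fc} (h : Jn T f g) (hf : f ∈ T)
    (hT : T ⊆ S) (hF : ∀ a ∈ T, ∀ b ∈ T, adjF a b → F a b = 0) : WkS S F f g 0 := by
  obtain ⟨W, L, h1, h2, h3, h4⟩ := walk_of_jn h hf
  refine ⟨W, L, h1, h2, h3, fun a ha => hT (h4 a ha), ?_⟩
  unfold wsum
  apply Finset.sum_eq_zero
  intro i hi
  rw [Finset.mem_range] at hi
  exact hF _ (h4 _ ⟨i, hi.le, rfl⟩) _ (h4 _ ⟨i + 1, hi, rfl⟩) (h1.adj i hi)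

/-- the weight which counts the steps across the row between `r` and `r'` -/
def dst2 (r r' : Fc) (a b : Fc) : ZMod 2 := cst (r.1, r.2, false) a b + cst (r'.1, r'.2, false) a b

/-- two faces joined off the closed walk -/
theorem WkS.par {S : Set Fc} {f r r' : Fc} {c : ZMod 2} (h : WkS S (dst2 r r') f f c)
    (hr : r ∉ S) (hj : Jn {a | a ∉ S} r r') : c = 0 := by
  obtain ⟨W, L, h1, h2, h3, h4, h5⟩ := h
  have hW : IsCl W L := { toIsWalk := h1, close := h3.trans h2.symm }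
  have e : NW W L r + NW W L r' = c := by
    rw [← h5]
    exact wsum_add _ _ _ _
  have e2 : NW W L r = NW W L r' :=
    NW_jn hW (S := {a | a ∉ S}) (fun a ha hv => ha (h4 a hv)) (fun hv => hr (h4 r hv)) hj
  rw [← e, e2, two_zmod]

/-- path along a row -/
theorem jn_row {S : Set Fc} {j i i' : ℤ} (h : ∀ t, min i i' ≤ t → t ≤ max i i' → ((t, j) : Fc) ∈ S) :
    Jn S (i, j) (i', j) := by
  have up : ∀ (n : ℕ) (i : ℤ), (∀ t, i ≤ t → t ≤ i + n → ((t, j) : Fc) ∈ S) →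
      Jn S (i, j) (i + n, j) := by
    intro n
    induction n with
    | zero => intro i _; simpa using Jn.refl ((i, j) : Fc)
    | succ n ih =>
      intro i h
      have h1 := ih i (fun t h1 h2 => h t h1 (by push_cast; omega))
      refine h1.step (h (i + (n + 1 : ℕ)) (by omega) le_rfl) ?_
      rw [adjF_iff]
      exact Or.inl ⟨by push_cast; ring, rfl⟩
  rcases le_total i i' with hi | hi
  · obtain ⟨n, hn⟩ := Int.eq_ofNat_of_zero_le (sub_nonneg.2 hi)
    have e : i' = i + n := by omega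
    rw [e]
    apply up
    intro t h1 h2
    apply h t
    · rw [min_eq_left hi]; exact h1
    · rw [max_eq_right hi]; omega
  · obtain ⟨n, hn⟩ := Int.eq_ofNat_of_zero_le (sub_nonneg.2 hi)
    have e : i = i' + n := by omega
    rw [min_eq_right hi, max_eq_left hi] at h
    have h2 := up n i' (fun t h1 h2 => h t h1 (by omega))
    rw [← e] at h2
    exact h2.symm (h i' le_rfl hi)

/-- path along a column -/
theorem jn_col {S : Set Fc} {i j j' : ℤ} (h : ∀ t, min j j' ≤ t → t ≤ max j j' → ((i, t) : Fc) ∈ S) :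
    Jn S (i, j) (i, j') := by
  have up : ∀ (n : ℕ) (j : ℤ), (∀ t, j ≤ t → t ≤ j + n → ((i, t) : Fc) ∈ S) →
      Jn S (i, j) (i, j + n) := by
    intro n
    induction n with
    | zero => intro j _; simpa using Jn.refl ((i, j) : Fc)
    | succ n ih =>
      intro j h
      have h1 := ih j (fun t h1 h2 => h t h1 (by push_cast; omega))
      refine h1.step (h (j + (n + 1 : ℕ)) (by omega) le_rfl) ?_
      rw [adjF_iff]
      exact Or.inr (Or.inr (Or.inl ⟨rfl, by push_cast; ring⟩))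
  rcases le_total j j' with hi | hi
  · obtain ⟨n, hn⟩ := Int.eq_ofNat_of_zero_le (sub_nonneg.2 hi)
    have e : j' = j + n := by omega
    rw [e]
    apply up
    intro t h1 h2
    apply h t
    · rw [min_eq_left hi]; exact h1
    · rw [max_eq_right hi]; omega
  · obtain ⟨n, hn⟩ := Int.eq_ofNat_of_zero_le (sub_nonneg.2 hi)
    have e : j = j' + n := by omega
    rw [min_eq_right hi, max_eq_left hi] at h
    have h2 := up n j' (fun t h1 h2 => h t h1 (by omega))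
    rw [← e] at h2
    exact h2.symm (h j' le_rfl hi)

/-- path inside a parallelogram -/
theorem jn_box {S : Set Fc} {i0 i1 j0 j1 : ℤ}
    (h : ∀ f : Fc, i0 ≤ f.1 → f.1 ≤ i1 → j0 ≤ f.2 → f.2 ≤ j1 → f ∈ S) {f g : Fc}
    (hf : (i0 ≤ f.1 ∧ f.1 ≤ i1) ∧ j0 ≤ f.2 ∧ f.2 ≤ j1)
    (hg : (i0 ≤ g.1 ∧ g.1 ≤ i1) ∧ j0 ≤ g.2 ∧ g.2 ≤ j1) : Jn S f g := by
  obtain ⟨a, b⟩ := f
  obtain ⟨c, d⟩ := g
  simp only at hf hg
  refine (jn_row (i' := c) fun t h1 h2 => ?_).trans (jn_col fun t h1 h2 => ?_)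
  · apply h
    · simp only; rcases le_total a c with hh | hh
      · rw [min_eq_left hh] at h1; omega
      · rw [min_eq_right hh] at h1; omega
    · simp only; rcases le_total a c with hh | hh
      · rw [max_eq_right hh] at h2; omega
      · rw [max_eq_left hh] at h2; omega
    · exact hf.2.1
    · exact hf.2.2
  · apply h
    · exact hg.1.1
    · exact hg.1.2
    · simp only; rcases le_total b d with hh | hh
      · rw [min_eq_left hh] at h1; omega
      · rw [min_eq_right hh] at h1; omega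
    · simp only; rcases le_total b d with hh | hh
      · rw [max_eq_right hh] at h2; omega
      · rw [max_eq_left hh] at h2; omega

/-- the row segment -/
def Rw (x : Fc) (a b j : ℤ) : Set Fc := {f | f.2 = j ∧ x.1 + a ≤ f.1 ∧ f.1 ≤ x.1 + b}

/-- the annulus `a ≤ |f - x|_∞ ≤ b` -/
def An (x : Fc) (a b : ℤ) : Set Fc :=
  {f | (a ≤ |f.1 - x.1| ∨ a ≤ |f.2 - x.2|) ∧ |f.1 - x.1| ≤ b ∧ |f.2 - x.2| ≤ b}

/-- the faces of `U` in the annulus off the row segment -/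
def Sa (U : Finset Fc) (x : Fc) (a b j : ℤ) : Set Fc :=
  {f | f ∈ U ∧ f ∈ An x a b ∧ f ∉ Rw x a b j}

/-- the faces of the annulus next to the row segment: row `j + e` -/
def Nb (x : Fc) (a b j e : ℤ) : Set Fc := {f | f.2 = j + e ∧ x.1 + a ≤ f.1 ∧ f.1 ≤ x.1 + b}

/-- the geometric situation: the annulus around `x`, an outer face inside, the row segment in `U` -/
structure Geo (U : Finset Fc) (x : Fc) (a b j : ℤ) : Prop where
  dom : IsDom U
  ha1 : j - x.2 + 2 ≤ a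
  ha2 : x.2 - j + 2 ≤ a
  hab : a ≤ b
  hx : ∃ y, y ∉ U ∧ |y.1 - x.1| ≤ a - 1 ∧ |y.2 - x.2| ≤ a - 1
  strip : ∀ f : Fc, j - 1 ≤ f.2 → f.2 ≤ j + 1 → x.1 + a - 1 ≤ f.1 → f.1 ≤ x.1 + b + 1 → f ∈ U

/-- the crossing number: a walk from the north side to the south side of the row segment, off it -/
theorem par {x : Fc} {a b j : ℤ} {T : Set Fc} (hR : Rw x a b j ⊆ T)
    {c d : Fc} (hc : c ∈ Nb x a b j 1) (hd : d ∈ Nb x a b j (-1)) (hcT : c ∈ T)
    (h : Jn {f | f ∈ T ∧ f ∉ Rw x a b j} c d) (h0 : ((x.1 + a - 1, j) : Fc) ∉ T)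
    (h1 : ((x.1 + b + 1, j) : Fc) ∉ T) :
    ¬ Jn {f | f ∉ T} ((x.1 + a - 1, j) : Fc) (x.1 + b + 1, j) := by
  intro hj
  obtain ⟨c1, c2⟩ := c
  obtain ⟨d1, d2⟩ := d
  unfold Nb at hc hd
  change c2 = j + 1 ∧ x.1 + a ≤ c1 ∧ c1 ≤ x.1 + b at hc
  change d2 = j + -1 ∧ x.1 + a ≤ d1 ∧ d1 ≤ x.1 + b at hd
  obtain ⟨hc2, hc3, hc4⟩ := hc
  obtain ⟨hd2, hd3, hd4⟩ := hd
  set F := dst2 ((x.1 + a - 1, j) : Fc) ((x.1 + b + 1, j) : Fc) with hF
  have hrow : ∀ t : ℤ, x.1 + a ≤ t → t ≤ x.1 + b → ((t, j) : Fc) ∈ Rw x a b j :=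
    fun t h1 h2 => ⟨rfl, h1, h2⟩
  have hcR : ((c1, c2) : Fc) ∉ Rw x a b j := by
    rintro ⟨h, _⟩
    simp only at h
    omega
  have w1 : WkS T F (c1, c2) (d1, d2) 0 := by
    refine WkS.of_jn F h ⟨hcT, hcR⟩ (fun f hf => hf.1) ?_
    rintro u ⟨huT, huR⟩ v ⟨hvT, hvR⟩ huv
    rw [adjF_iff] at huv
    obtain ⟨u1, u2⟩ := u
    obtain ⟨v1, v2⟩ := v
    have hu1 : ¬ (u1 = x.1 + b + 1 ∧ u2 = j) := by
      rintro ⟨rfl, rfl⟩; exact h1 huT
    have hv1 : ¬ (v1 = x.1 + b + 1 ∧ v2 = j) := by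
      rintro ⟨rfl, rfl⟩; exact h1 hvT
    have hu2 : ¬ (u2 = j ∧ x.1 + a ≤ u1 ∧ u1 ≤ x.1 + b) := huR
    have hv2 : ¬ (v2 = j ∧ x.1 + a ≤ v1 ∧ v1 ≤ x.1 + b) := hvR
    simp only at huv
    simp only [hF, dst2, cst]
    split_ifs <;> first | rfl | exact two_zmod 1 | (exfalso; omega)
  have w2 : WkS T F (d1, d2) (d1, j) 0 := by
    have hadj : adjF ((d1, d2) : Fc) (d1, j) := by
      rw [adjF_iff]; simp only [true_and]; omega
    have := WkS.single F (S := T) (Jn.mem h ⟨hcT, hcR⟩).1 (hR (hrow d1 hd3 hd4)) hadj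
    have e : F ((d1, d2) : Fc) (d1, j) = 0 := by
      simp only [hF, dst2, cst, true_and]
      split_ifs <;> first | rfl | exact two_zmod 1 | (exfalso; omega)
    rwa [e] at this
  have w3 : WkS T F (d1, j) (c1, j) 0 := by
    refine WkS.of_jn F (T := Rw x a b j) (jn_row fun t h1 h2 => hrow t ?_ ?_) (hrow d1 hd3 hd4)
      hR ?_
    · rcases le_total d1 c1 with hh | hh
      · rw [min_eq_left hh] at h1; omega
      · rw [min_eq_right hh] at h1; omega
    · rcases le_total d1 c1 with hh | hh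
      · rw [max_eq_right hh] at h2; omega
      · rw [max_eq_left hh] at h2; omega
    · rintro u ⟨hu, _⟩ v ⟨hv, _⟩ _
      simp only [hF, dst2, cst]
      split_ifs <;> first | rfl | exact two_zmod 1 | (exfalso; omega)
  have w4 : WkS T F (c1, j) (c1, c2) 1 := by
    have hadj : adjF ((c1, j) : Fc) (c1, c2) := by
      rw [adjF_iff]; simp only [true_and]; omega
    have := WkS.single F (S := T) (hR (hrow c1 hc3 hc4)) hcT hadj
    have e : F ((c1, j) : Fc) (c1, c2) = 1 := by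
      simp only [hF, dst2, cst, true_and]
      split_ifs <;> first | (simp; done) | (exfalso; omega)
    rwa [e] at this
  have w := ((w1.trans w2).trans w3).trans w4
  have := w.par h0 hj
  norm_num at this

theorem Geo.row_mem {U : Finset Fc} {x : Fc} {a b j : ℤ} (h : Geo U x a b j) {f : Fc}
    (hf : f ∈ Rw x a b j) : f ∈ U ∧ f ∈ An x a b := by
  obtain ⟨h1, h2, h3⟩ := hf
  have a1 := h.ha1
  have a2 := h.ha2
  have a3 := h.hab
  refine ⟨h.strip f (by omega) (by omega) (by omega) (by omega), ?_, ?_, ?_⟩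
  · left
    rw [le_abs]
    omega
  · rw [abs_le]; omega
  · rw [abs_le]; omega

theorem Geo.r0_not {U : Finset Fc} {x : Fc} {a b j : ℤ} (h : Geo U x a b j) :
    ((x.1 + a - 1, j) : Fc) ∉ An x a b := by
  have a1 := h.ha1
  have a2 := h.ha2
  rintro ⟨h1, _⟩
  simp only at h1
  rcases h1 with h1 | h1
  · rw [le_abs] at h1; omega
  · rw [le_abs] at h1; omega

theorem Geo.r1_not {U : Finset Fc} {x : Fc} {a b j : ℤ} (_ : Geo U x a b j) :
    ((x.1 + b + 1, j) : Fc) ∉ An x a b := by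
  rintro ⟨_, h1, _⟩
  simp only at h1
  rw [abs_le] at h1
  omega

theorem Geo.r0_mem {U : Finset Fc} {x : Fc} {a b j : ℤ} (h : Geo U x a b j) :
    ((x.1 + a - 1, j) : Fc) ∈ U := by
  have := h.hab
  exact h.strip _ (by simp only; omega) (by simp only; omega) (by simp only; omega)
    (by simp only; omega)

theorem Geo.r1_mem {U : Finset Fc} {x : Fc} {a b j : ℤ} (h : Geo U x a b j) :
    ((x.1 + b + 1, j) : Fc) ∈ U := by
  have := h.hab
  exact h.strip _ (by simp only; omega) (by simp only; omega) (by simp only; omega)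
    (by simp only; omega)

/-- off `U ∩ annulus` the two ends of the row segment are joined -/
theorem Geo.ends {U : Finset Fc} {x : Fc} {a b j : ℤ} (h : Geo U x a b j) :
    Jn {f | ¬ (f ∈ U ∧ f ∈ An x a b)} ((x.1 + a - 1, j) : Fc) (x.1 + b + 1, j) := by
  have a1 := h.ha1
  have a2 := h.ha2
  obtain ⟨y, hyU, hy1, hy2⟩ := h.hx
  rw [abs_le] at hy1 hy2
  -- inside
  have s1 : Jn {f | ¬ (f ∈ U ∧ f ∈ An x a b)} ((x.1 + a - 1, j) : Fc) y := by
    refine (jn_box (i0 := x.1 - (a - 1)) (i1 := x.1 + (a - 1)) (j0 := x.2 - (a - 1))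
      (j1 := x.2 + (a - 1)) ?_ ?_ ?_)
    · rintro f h1 h2 h3 h4 ⟨_, h5, _⟩
      rcases h5 with h5 | h5
      · rw [le_abs] at h5; omega
      · rw [le_abs] at h5; omega
    · simp only; omega
    · omega
  -- far away
  obtain ⟨M, hM, hM2⟩ : ∃ M : ℤ, x.1 + b + 1 ≤ M ∧ ((M, j) : Fc) ∉ U := by
    refine ⟨∑ f ∈ U, |f.1| + |x.1 + b + 1| + 1, ?_, ?_⟩
    · have h1 : 0 ≤ ∑ f ∈ U, |f.1| := Finset.sum_nonneg fun _ _ => abs_nonneg _
      have h2 := le_abs_self (x.1 + b + 1)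
      omega
    · intro hmem
      have h1 : |(∑ f ∈ U, |f.1| + |x.1 + b + 1| + 1 : ℤ)| ≤ ∑ f ∈ U, |f.1| :=
        Finset.single_le_sum (f := fun f : Fc => |f.1|) (fun _ _ => abs_nonneg _) hmem
      have h3 := le_abs_self (∑ f ∈ U, |f.1| + |x.1 + b + 1| + 1 : ℤ)
      have h4 := abs_nonneg (x.1 + b + 1)
      omega
  have s2 : Jn {f | ¬ (f ∈ U ∧ f ∈ An x a b)} y (M, j) := by
    have h1 : Jn {f | f ∉ U} y (M, j) := h.dom.cconn y hyU _ hM2
    refine h1.mono ?_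
    rintro f hf ⟨hh, _⟩
    exact hf hh
  have s3 : Jn {f | ¬ (f ∈ U ∧ f ∈ An x a b)} ((M, j) : Fc) (x.1 + b + 1, j) := by
    apply jn_row
    rintro t h1 h2 ⟨_, _, h3, _⟩
    rw [min_eq_right hM] at h1
    simp only at h3
    rw [abs_le] at h3
    omega
  exact (s1.trans s2).trans s3

/-- SEP0: the north and the south side of the row segment are not joined in `U ∩ annulus`. -/
theorem Geo.sep0 {U : Finset Fc} {x : Fc} {a b j : ℤ} (h : Geo U x a b j) {c d : Fc}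
    (hc : c ∈ Nb x a b j 1) (hd : d ∈ Nb x a b j (-1)) (hcS : c ∈ Sa U x a b j) :
    ¬ Jn (Sa U x a b j) c d := by
  intro hj
  have hj' : Jn {f | f ∈ {f | f ∈ U ∧ f ∈ An x a b} ∧ f ∉ Rw x a b j} c d := by
    refine hj.mono ?_
    rintro f ⟨h1, h2, h3⟩
    exact ⟨⟨h1, h2⟩, h3⟩
  have h0 := par (T := {f | f ∈ U ∧ f ∈ An x a b}) (x := x) (a := a) (b := b) (j := j)
    (fun f hf => h.row_mem hf) hc hd ⟨hcS.1, hcS.2.1⟩ hj' (fun hh => h.r0_not hh.2)
    (fun hh => h.r1_not hh.2)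
  exact h0 h.ends

theorem Geo.nb_mem {U : Finset Fc} {x : Fc} {a b j e : ℤ} (h : Geo U x a b j)
    (he : e = 1 ∨ e = -1) {f : Fc} (hf : f ∈ Nb x a b j e) : f ∈ Sa U x a b j := by
  obtain ⟨h1, h2, h3⟩ := hf
  have a1 := h.ha1
  have a2 := h.ha2
  have a3 := h.hab
  refine ⟨h.strip f (by omega) (by omega) (by omega) (by omega), ⟨?_, ?_, ?_⟩, ?_⟩
  · left
    rw [le_abs]
    omega
  · rw [abs_le]; omega
  · rw [abs_le]; omega
  · rintro ⟨h4, _⟩
    omega

/-- SEP: arcs from both sides to the outside together with the row segment separate. -/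
theorem Geo.sep {U : Finset Fc} {x : Fc} {a b j : ℤ} (h : Geo U x a b j) {TL TR : Set Fc}
    (hL : TL ⊆ Sa U x a b j) (hR : TR ⊆ Sa U x a b j) {c d l l' y y' : Fc}
    (hc : c ∈ Nb x a b j 1) (hd : d ∈ Nb x a b j (-1)) (hcL : c ∈ TL) (hdR : d ∈ TR)
    (hl : Jn TL c l) (hl' : Jn TR d l') (hy : adjF l y) (hy' : adjF l' y') (hyU : y ∉ U)
    (hyU' : y' ∉ U) :
    ¬ Jn {f | f ∈ U ∧ f ∉ TL ∧ f ∉ TR ∧ f ∉ Rw x a b j} ((x.1 + a - 1, j) : Fc)
      (x.1 + b + 1, j) := by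
  intro hj
  set T : Set Fc := {f | f ∈ TL ∨ f ∈ TR ∨ f ∈ Rw x a b j ∨ f ∉ U} with hT
  have e1 : Jn {f | f ∈ T ∧ f ∉ Rw x a b j} c l := by
    refine hl.mono ?_
    intro f hf
    exact ⟨Or.inl hf, (hL hf).2.2⟩
  have e2 : Jn {f | f ∈ T ∧ f ∉ Rw x a b j} l y :=
    Jn.single ⟨Or.inr (Or.inr (Or.inr hyU)), fun hh => hyU (h.row_mem hh).1⟩ hy
  have e3 : Jn {f | f ∈ T ∧ f ∉ Rw x a b j} y y' := by
    have h1 : Jn {f | f ∉ U} y y' := h.dom.cconn y hyU y' hyU'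
    refine h1.mono ?_
    intro f hf
    exact ⟨Or.inr (Or.inr (Or.inr hf)), fun hh => hf (h.row_mem hh).1⟩
  have hl'R : l' ∈ TR := Jn.mem hl' hdR
  have e4 : Jn {f | f ∈ T ∧ f ∉ Rw x a b j} y' l' :=
    Jn.single ⟨Or.inr (Or.inl hl'R), (hR hl'R).2.2⟩ (adjF_symm hy')
  have e5 : Jn {f | f ∈ T ∧ f ∉ Rw x a b j} l' d := by
    refine (hl'.symm hdR).mono ?_
    intro f hf
    exact ⟨Or.inr (Or.inl hf), (hR hf).2.2⟩
  have h0 := par (T := T) (x := x) (a := a) (b := b) (j := j)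
    (fun f hf => Or.inr (Or.inr (Or.inl hf))) hc hd (Or.inl hcL)
    ((((e1.trans e2).trans e3).trans e4).trans e5) ?_ ?_
  · refine h0 (hj.mono ?_)
    rintro f ⟨h1, h2, h3, h4⟩ (h5 | h5 | h5 | h5)
    · exact h2 h5
    · exact h3 h5
    · exact h4 h5
    · exact h5 h1
  · rintro (h5 | h5 | h5 | h5)
    · exact h.r0_not (hL h5).2.1
    · exact h.r0_not (hR h5).2.1
    · exact h.r0_not (h.row_mem h5).2
    · exact h5 h.r0_mem
  · rintro (h5 | h5 | h5 | h5)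
    · exact h.r1_not (hL h5).2.1
    · exact h.r1_not (hR h5).2.1
    · exact h.r1_not (h.row_mem h5).2
    · exact h5 h.r1_mem

end Pool.Agent.H98.Per
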