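import Pool.Agent.H98.Per.T3x
import Pool.Agent.H53.Per.Tmp

set_option autoImplicit false

/-! MP_2e6055, module F5: lanes in charts; the cluster of the ray event and of a chain of crossed
strips. -/

namespace Pool.Agent.H98.Per

open Pool.Agent.H7.UC Pool.Agent.H74.Tri Pool.Agent.H75.Perc Pool.Agent.H75.Lv Pool.Agent.H53.Per
open Pool.Agent.H55.Lane

theorem pa_jn {S : ℤ × ℤ → Prop} {T : Set Fc} (h : ∀ z, S z → z ∈ T) {u v : ℤ × ℤ}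
    (hP : Pool.Agent.H52.Tri.Pa S u v) : Jn T u v :=
  Relation.ReflTransGen.mono (fun _ _ hab => ⟨h _ hab.2, Pool.Agent.H52.Tri.TA_iff_adjF.1 hab.1⟩)
    _ _ hP.2

theorem jn_pa {S : ℤ × ℤ → Prop} {T : Set Fc} (h : ∀ z, z ∈ T → S z) {u v : ℤ × ℤ} (hu : S u)
    (hP : Jn T u v) : Pool.Agent.H52.Tri.Pa S u v :=
  ⟨hu, Relation.ReflTransGen.mono
    (fun _ _ hab => ⟨Pool.Agent.H52.Tri.TA_iff_adjF.2 hab.2, h _ hab.1⟩) _ _ hP⟩

/-- horizontal and vertical paths in a chart meet -/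
theorem meetC (C : Ch) {a b c d : ℤ} {A B : Set Fc} {p q r s : Fc} (hp : p ∈ A) (hP : Jn A p q)
    (hr : r ∈ B) (hQ : Jn B r s) (hpa : C.X p = a) (hqb : C.X q = b) (hrc : C.Y r = c)
    (hsd : C.Y s = d) (hA : ∀ f ∈ A, c ≤ C.Y f ∧ C.Y f ≤ d) (hB : ∀ f ∈ B, a ≤ C.X f ∧ C.X f ≤ b) :
    ∃ z, z ∈ A ∧ z ∈ B ∧ Jn A p z ∧ Jn B r z := by
  have hq := Jn.mem hP hp
  have hs := Jn.mem hQ hr
  have tm : ∀ {T : Set Fc} {f : Fc}, f ∈ T → tauI C (tau C f) ∈ T := by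
    intro T f hf
    rw [tauI_tau]; exact hf
  have P1 : Jn {g | tauI C g ∈ A} (tau C q) (tau C p) :=
    jn_tau C (hP.symm hp) fun a ha => tm ha
  have P2 := jn_pa (S := fun g => tauI C g ∈ A) (fun z hz => hz) (tm hq) P1
  have hA' : ∀ g, tauI C g ∈ A → c ≤ -C.s * g.2 ∧ -C.s * g.2 ≤ d := by
    intro g hg
    have := hA _ hg
    unfold tauI at this
    rwa [Ch.Y_pt] at this
  have hB' : ∀ g, tauI C g ∈ B → a ≤ -g.1 ∧ -g.1 ≤ b := by
    intro g hg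
    have := hB _ hg
    unfold tauI at this
    rwa [Ch.X_pt] at this
  have fin : ∀ z', Pool.Agent.H52.Tri.Pa (fun g => tauI C g ∈ A) (tau C q) z' →
      Jn {g | tauI C g ∈ B} (tau C r) z' → tauI C z' ∈ B →
      ∃ z, z ∈ A ∧ z ∈ B ∧ Jn A p z ∧ Jn B r z := by
    intro z' h1 h2 h3
    have h1' : Jn {g | tauI C g ∈ A} (tau C q) z' := pa_jn (fun z hz => hz) h1
    have h4 := jn_tauI C (T := A) h1' fun a ha => ha
    have h5 := jn_tauI C (T := B) h2 fun a ha => ha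
    rw [tauI_tau] at h4 h5
    exact ⟨tauI C z', h1.right, h3, hP.trans h4, h5⟩
  rcases C.hs with h' | h'
  · have Q1 : Jn {g | tauI C g ∈ B} (tau C s) (tau C r) :=
      jn_tau C (hQ.symm hr) fun a ha => tm ha
    have Q2 := jn_pa (S := fun g => tauI C g ∈ B) (fun z hz => hz) (tm hs) Q1
    obtain ⟨z', h1, h2⟩ := Pool.Agent.H52.Tri.meetHV (a := -b) (b := -a) (c := -d) (d := -c) P2 Q2
      (by show -C.X q = -b; rw [hqb]) (by show -C.X p = -a; rw [hpa])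
      (by show -C.s * C.Y s = -d; rw [hsd, h']; ring) (by show -C.s * C.Y r = -c; rw [hrc, h']; ring)
      (fun z hz => by have := hA' z hz; rw [h'] at this; omega)
      (fun z hz => by have := hB' z hz; omega)
    refine fin z' h1 ?_ h2.right
    have h3 : Jn {g | tauI C g ∈ B} (tau C s) z' := pa_jn (fun z hz => hz) h2
    have Q3 : Jn {g | tauI C g ∈ B} (tau C r) (tau C s) :=
      jn_tau C hQ fun a ha => tm ha
    exact Q3.trans h3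
  · have Q1 : Jn {g | tauI C g ∈ B} (tau C r) (tau C s) :=
      jn_tau C hQ fun a ha => tm ha
    have Q2 := jn_pa (S := fun g => tauI C g ∈ B) (fun z hz => hz) (tm hr) Q1
    obtain ⟨z', h1, h2⟩ := Pool.Agent.H52.Tri.meetHV (a := -b) (b := -a) (c := c) (d := d) P2 Q2
      (by show -C.X q = -b; rw [hqb]) (by show -C.X p = -a; rw [hpa])
      (by show -C.s * C.Y r = c; rw [hrc, h']; ring) (by show -C.s * C.Y s = d; rw [hsd, h']; ring)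
      (fun z hz => by have := hA' z hz; rw [h'] at this; omega)
      (fun z hz => by have := hB' z hz; omega)
    exact fin z' h1 (pa_jn (fun z hz => hz) h2) h2.right

/-- crossing of a strip by faces of `S`, with its two ends -/
def XC (C : Ch) (S : Set Fc) (s : Sp) (u v : Fc) : Prop :=
  u ∈ S ∧ InC C s u ∧ (s.hor = true → C.X u = s.x0 ∧ C.X v = s.x1) ∧
  (s.hor = false → C.Y u = s.y0 ∧ C.Y v = s.y1) ∧ Jn (S ∩ {f | InC C s f}) u v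

theorem XC.mem {C : Ch} {S : Set Fc} {s : Sp} {u v : Fc} (h : XC C S s u v) :
    v ∈ S ∧ InC C s v := by
  obtain ⟨h1, h2, _, _, h3⟩ := h
  exact Jn.mem h3 ⟨h1, h2⟩

theorem xc_of_cr {C : Ch} {S : Set Fc} {s : Sp} (h : CrC C S s) (hx : s.x0 ≤ s.x1)
    (hy : s.y0 ≤ s.y1) : ∃ u v, XC C S s u v := by
  unfold CrC at h
  by_cases hh : s.hor = true
  · rw [if_pos hh] at h
    obtain ⟨u, v, h1, h2, h3, h4, h5, _, _, h6⟩ := h
    refine ⟨u, v, h1, ⟨?_, ?_⟩, fun _ => ⟨h2, h5⟩, fun h => absurd (hh.symm.trans h) (by simp),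
      h6.mono ?_⟩
    · show s.x0 ≤ C.X u ∧ C.X u ≤ s.x1
      omega
    · exact ⟨h3, h4⟩
    · rintro a ⟨ha, b1, b2, b3, b4⟩
      exact ⟨ha, ⟨b1, b2⟩, b3, b4⟩
  · rw [if_neg hh] at h
    obtain ⟨u, v, h1, h2, h3, h4, h5, _, _, h6⟩ := h
    refine ⟨u, v, h1, ⟨⟨h3, h4⟩, ?_⟩, fun h => absurd h hh, fun _ => ⟨h2, h5⟩, h6.mono ?_⟩
    · show s.y0 ≤ C.Y u ∧ C.Y u ≤ s.y1
      omega
    · rintro a ⟨ha, b1, b2, b3, b4⟩
      exact ⟨ha, ⟨b1, b2⟩, b3, b4⟩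

theorem XC.meetHV {C : Ch} {S : Set Fc} {s s' : Sp} {u v u' v' : Fc} (h : XC C S s u v)
    (h' : XC C S s' u' v') (hp : HV s s') : ∃ z, Jn (S ∩ {f | InC C s f}) u z ∧
      Jn (S ∩ {f | InC C s' f}) u' z ∧ z ∈ S := by
  obtain ⟨hs, ht, a1, a2, a3, a4⟩ := hp
  have e1 := h.2.2.1 hs
  have e2 := h'.2.2.2.1 ht
  have hA : ∀ f ∈ S ∩ {f | InC C s f}, s'.y0 ≤ C.Y f ∧ C.Y f ≤ s'.y1 := by
    rintro f ⟨_, ⟨_, _⟩, b3, b4⟩
    simp only at b3 b4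
    omega
  have hB : ∀ f ∈ S ∩ {f | InC C s' f}, s.x0 ≤ C.X f ∧ C.X f ≤ s.x1 := by
    rintro f ⟨_, ⟨b1, b2⟩, _, _⟩
    simp only at b1 b2
    omega
  obtain ⟨z, h1, h2, h3, h4⟩ := meetC C (a := s.x0) (b := s.x1) (c := s'.y0) (d := s'.y1)
    (A := S ∩ {f | InC C s f}) (B := S ∩ {f | InC C s' f}) ⟨h.1, h.2.1⟩ h.2.2.2.2
    ⟨h'.1, h'.2.1⟩ h'.2.2.2.2 e1.1 e1.2 e2.1 e2.2 hA hB
  exact ⟨z, h3, h4, h1.1⟩

theorem XC.meet {C : Ch} {S : Set Fc} {s s' : Sp} {u v u' v' : Fc} (h : XC C S s u v)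
    (h' : XC C S s' u' v') (hp : Perp s s') : Jn (S ∩ {f | InC C s f ∨ InC C s' f}) u u' := by
  have m1 : (S ∩ {f | InC C s f}) ⊆ (S ∩ {f | InC C s f ∨ InC C s' f}) := by
    rintro a ⟨a1, a2⟩; exact ⟨a1, Or.inl a2⟩
  have m2 : (S ∩ {f | InC C s' f}) ⊆ (S ∩ {f | InC C s f ∨ InC C s' f}) := by
    rintro a ⟨a1, a2⟩; exact ⟨a1, Or.inr a2⟩
  rcases hp with hp | hp
  · obtain ⟨z, h1, h2, _⟩ := h.meetHV h' hp
    exact (h1.mono m1).trans ((Jn.symm (S := S ∩ {f | InC C s' f}) ⟨h'.1, h'.2.1⟩ h2).mono m2)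
  · obtain ⟨z, h1, h2, _⟩ := h'.meetHV h hp
    exact (h2.mono m1).trans ((Jn.symm (S := S ∩ {f | InC C s' f}) ⟨h'.1, h'.2.1⟩ h1).mono m2)

/-- the crossings of a chain of strips are joined -/
theorem chainC {C : Ch} {S : Set Fc} : ∀ (l : List Sp), l.IsChain Perp → (∀ s ∈ l, CrC C S s) →
    (∀ s ∈ l, s.x0 ≤ s.x1 ∧ s.y0 ≤ s.y1) → ∀ s0 ∈ l.head?, ∀ u v, XC C S s0 u v →
    ∀ s ∈ l, ∃ u' v', XC C S s u' v' ∧ Jn {f | f ∈ S ∧ ∃ t ∈ l, InC C t f} u u' := by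
  intro l
  induction l with
  | nil => intro _ _ _ s0 h; simp at h
  | cons a l ih =>
    intro hch hC hne s0 hs0 u v huv s hs
    rw [List.head?_cons, Option.mem_def, Option.some.injEq] at hs0
    subst hs0
    rcases List.mem_cons.1 hs with rfl | hs
    · exact ⟨u, v, huv, Jn.refl _⟩
    · cases l with
      | nil => exact absurd hs (by simp)
      | cons b l =>
        have hab : Perp a b := (List.isChain_cons_cons.1 hch).1
        have hch' := (List.isChain_cons_cons.1 hch).2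
        obtain ⟨u', v', h1⟩ := xc_of_cr (hC b (by simp)) (hne b (by simp)).1 (hne b (by simp)).2
        have h2 := huv.meet h1 hab
        obtain ⟨u2, v2, g1, g2⟩ := ih hch' (fun s hs => hC s (List.mem_cons_of_mem _ hs))
          (fun s hs => hne s (List.mem_cons_of_mem _ hs)) b (by simp) u' v' h1 s hs
        refine ⟨u2, v2, g1, (h2.mono ?_).trans (g2.mono ?_)⟩
        · rintro y ⟨hy1, hy2 | hy2⟩
          · exact ⟨hy1, a, by simp, hy2⟩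
          · exact ⟨hy1, b, by simp, hy2⟩
        · rintro y ⟨hy1, t, ht, hy2⟩
          exact ⟨hy1, t, List.mem_cons_of_mem _ ht, hy2⟩

section

variable {C : Ch} {U : Finset Fc} {ω : Fc → Bool} {p : Pos} {v : Fc} {R t y : ℤ}

/-- the faces of the row next to the ray are in the sector -/
theorem row_sect (h : Ent C U ω p v R t y) {e : ℤ} (he : e = 1 ∨ e = -1) {a : Fc}
    (h1 : C.Y a = y + e) (h2 : C.X (ph p) - 40 * t ≤ C.X a) (h3 : C.X a ≤ C.X (ph p) - 10 * t) :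
    a ∈ Anr C U p t y := by
  rw [mem_Sa h]
  apply (geo h).nb_mem (side_s C he)
  refine ⟨?_, ?_, ?_⟩
  · show -C.s * C.Y a = -C.s * y + -C.s * e
    rw [h1]; ring
  · show -C.X (ph p) + 10 * t ≤ -C.X a
    omega
  · show -C.X a ≤ -C.X (ph p) + 40 * t
    omega

/-- the ray path crosses the first strip -/
theorem ray_meet (h : Ent C U ω p v R t y) {e : ℤ} {S : Set Fc}
    (hS : S ⊆ Anr C U p t y) {f g z : Fc} (hfS : f ∈ S) (hfY : C.Y f = y + e)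
    (hf1 : C.X (ph p) - 40 * t ≤ C.X f) (hf2 : C.X f ≤ C.X (ph p) - 10 * t) (hfg : Jn S f g)
    (hz : z ∉ U) (hgz : adjF g z) {T : Set Fc} {x0 x1 lo hi : ℤ}
    (hlh : (e = 1 ∧ lo = y + 1 ∧ hi = y + t) ∨ (e = -1 ∧ lo = y - t ∧ hi = y - 1))
    (hx0 : x0 ≤ C.X (ph p) - 40 * t) (hx1 : C.X (ph p) - 10 * t ≤ x1) {u w : Fc} (huT : u ∈ T)
    (hT : ∀ a ∈ T, lo ≤ C.Y a ∧ C.Y a ≤ hi) (huw : Jn T u w) (hu : C.X u = x0) (hw : C.X w = x1) :
    ∃ m, m ∈ S ∧ m ∈ T ∧ Jn S f m ∧ Jn T u m := by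
  have t1 := h.t1
  have tR := h.tR
  have hx := h.x
  have y1 := h.y1
  have y2 := h.y2
  have y3 := h.y3
  have hy3 : |y - C.Y v| < R - t := by omega
  rw [abs_lt] at hy3
  rw [abs_le] at y1 y2
  set A : Set Fc := {a | lo ≤ C.Y a ∧ C.Y a ≤ hi ∧ C.X (ph p) - 40 * t ≤ C.X a ∧
    C.X a ≤ C.X (ph p) - 10 * t} with hA
  have hfA : f ∈ A := by
    rcases hlh with ⟨h1, h2, h3⟩ | ⟨h1, h2, h3⟩ <;> refine ⟨?_, ?_, hf1, hf2⟩ <;> omega
  have hgA : g ∉ A := by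
    rintro ⟨h1, h2, h3, h4⟩
    apply hz
    apply h.box
    have hk := C.king hgz
    rw [abs_le, abs_le] at hk
    rw [C.mem_Bx, abs_le, abs_le]
    rcases hlh with ⟨_, h5, h6⟩ | ⟨_, h5, h6⟩ <;> omega
  obtain ⟨a, b, hfa, haA, hbS, hbA, hab, _⟩ := hfg.exit hfA hgA
  have haS : a ∈ S := (Jn.mem hfa ⟨hfS, hfA⟩).1
  obtain ⟨a1, a2, a3, a4⟩ := haA
  have hbAn := hS hbS
  obtain ⟨_, b2, b3, b4⟩ := hbAn
  have hk := C.king hab
  rw [abs_le, abs_le] at hk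
  rw [C.mem_Bx, abs_le, abs_le] at b2
  rw [C.mem_Bx, abs_le, abs_le] at b3
  have hbA' : ¬ (lo ≤ C.Y b ∧ C.Y b ≤ hi ∧ C.X (ph p) - 40 * t ≤ C.X b ∧
    C.X b ≤ C.X (ph p) - 10 * t) := hbA
  have hSA : ∀ c ∈ S ∩ A, x0 ≤ C.X c ∧ C.X c ≤ x1 := by
    rintro c ⟨_, _, _, c3, c4⟩
    omega
  rcases hlh with ⟨h1, h2, h3⟩ | ⟨h1, h2, h3⟩
  · -- upper sector: from row y + 1 to row y + t
    have ha : C.Y a = hi := by omega
    obtain ⟨m, m1, m2, m3, m4⟩ := meetC C (a := x0) (b := x1) (c := lo) (d := hi)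
      (A := T) (B := S ∩ A) huT huw ⟨hfS, hfA⟩ hfa hu hw (by omega) ha hT hSA
    exact ⟨m, m2.1, m1, m4.mono fun c hc => hc.1, m3⟩
  · have ha : C.Y a = lo := by omega
    obtain ⟨m, m1, m2, m3, m4⟩ := meetC C (a := x0) (b := x1) (c := lo) (d := hi)
      (A := T) (B := S ∩ A) huT huw ⟨haS, a1, a2, a3, a4⟩ (hfa.symm ⟨hfS, hfA⟩) hu hw ha (by omega)
      hT hSA
    have hfm : Jn (S ∩ A) f m := hfa.trans m4
    exact ⟨m, m2.1, m1, hfm.mono fun c hc => hc.1, m3⟩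

/-- **the lane**: the cluster of the ray path and of the crossings of a chain of strips. -/
theorem lane (h : Ent C U ω p v R t y) {e : ℤ} (he : e = 1 ∨ e = -1) {c : Bool} {s1 : Sp}
    {l : List Sp} (h1h : s1.hor = true)
    (hlh : (e = 1 ∧ s1.y0 = y + 1 ∧ s1.y1 = y + t) ∨ (e = -1 ∧ s1.y0 = y - t ∧ s1.y1 = y - 1))
    (hx0 : s1.x0 ≤ C.X (ph p) - 40 * t) (hx1 : C.X (ph p) - 10 * t ≤ s1.x1)
    (hch : (s1 :: l).IsChain Perp) (hne : ∀ s ∈ s1 :: l, s.x0 ≤ s.x1 ∧ s.y0 ≤ s.y1)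
    (hU : ∀ s ∈ s1 :: l, ∀ f, InC C s f → f ∈ U) (hray : RayE C U p t y e c ω)
    (hcr : ∀ s ∈ s1 :: l, CrC C {f | ω f = c} s)
    (hB : ∀ (P : Set Fc) (f : Fc), P ⊆ Anr C U p t y → sbase C p t y e ∈ P →
      Jn P (sbase C p t y e) f → (∃ g, g ∉ U ∧ adjF f g) →
      ∃ f' ∈ P, ∃ g, g ∉ U ∧ adjF f' g ∧ ω g = c) :
    ∃ β : Finset Fc, β ⊆ U ∧ (∀ f ∈ β, ω f = c) ∧ (∀ f ∈ β, ∀ g ∈ β, Jn (↑β : Set Fc) f g) ∧
      (∃ f ∈ β, ∃ x, x ∉ U ∧ adjF f x ∧ ω x = c) ∧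
      (∀ f ∈ β, f ∈ Sect C U p t y e ∨ ∃ s ∈ s1 :: l, InC C s f) ∧
      ∀ s ∈ s1 :: l, ∃ u w, XC C (↑β : Set Fc) s u w := by
  classical
  obtain ⟨f0, g0, hf0, hf0Y, hf01, hf02, hf0c, hfg0, z0, hz0, hgz0⟩ := hray
  obtain ⟨u1, w1, hx1'⟩ := xc_of_cr (hcr s1 (by simp)) (hne s1 (by simp)).1 (hne s1 (by simp)).2
  set T : Set Fc := {f | f ∈ U ∧ ω f = c ∧ (f ∈ Sect C U p t y e ∨ ∃ s ∈ s1 :: l, InC C s f)} with hT
  set S : Set Fc := {a | a ∈ Sect C U p t y e ∧ ω a = c} with hS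
  have hST : S ⊆ T := fun a ha => ⟨ha.1.1.1, ha.2, Or.inl ha.1⟩
  have hXT : ∀ s ∈ s1 :: l, ({f | ω f = c} ∩ {f | InC C s f} : Set Fc) ⊆ T := by
    rintro s hs a ⟨ha1, ha2⟩
    exact ⟨hU s hs a ha2, ha1, Or.inr ⟨s, hs, ha2⟩⟩
  have hu1T : u1 ∈ T := hXT s1 (by simp) ⟨hx1'.1, hx1'.2.1⟩
  set β : Finset Fc := U.filter (fun f => f ∈ T ∧ Jn T u1 f) with hβ
  have mβ : ∀ f, f ∈ β ↔ f ∈ T ∧ Jn T u1 f := by
    intro f
    rw [hβ, Finset.mem_filter]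
    exact ⟨fun h => h.2, fun h => ⟨h.1.1, h⟩⟩
  -- the ray path meets the first crossing
  have e1 := hx1'.2.2.1 h1h
  obtain ⟨m, m1, m2, m3, m4⟩ := ray_meet h (S := S) (fun a ha => ha.1.1) ⟨hf0, hf0c⟩ hf0Y hf01
    hf02 hfg0 hz0 hgz0 (T := {f | ω f = c} ∩ {f | InC C s1 f}) hlh hx0 hx1 ⟨hx1'.1, hx1'.2.1⟩
    (fun a ha => ha.2.2) hx1'.2.2.2.2 e1.1 e1.2
  have hum : Jn T u1 m := m4.mono (hXT s1 (by simp))
  have huf : Jn T u1 f0 := hum.trans ((Jn.symm (S := S) ⟨hf0, hf0c⟩ m3).mono hST)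
  have hSβ : ∀ a, Jn S f0 a → a ∈ β := by
    intro a ha
    rw [mβ]
    exact ⟨hST (Jn.mem ha ⟨hf0, hf0c⟩), huf.trans (ha.mono hST)⟩
  have cβ0 : ∀ f ∈ β, Jn (↑β : Set Fc) u1 f := by
    intro f hf
    rw [mβ] at hf
    have key : ∀ f, Jn T u1 f → Jn (↑β : Set Fc) u1 f := by
      intro f hf
      induction hf with
      | refl => exact Jn.refl _
      | @tail b d b1 b2 ih =>
        refine ih.step ?_ b2.2
        exact_mod_cast (mβ d).2 ⟨b2.1, Jn.step b1 b2.1 b2.2⟩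
    exact key f hf.2
  have hu1β : u1 ∈ β := (mβ u1).2 ⟨hu1T, Jn.refl _⟩
  refine ⟨β, fun f hf => ((mβ f).1 hf).1.1, fun f hf => ((mβ f).1 hf).1.2.1, ?_, ?_,
    fun f hf => ((mβ f).1 hf).1.2.2, ?_⟩
  · intro f hf g hg
    exact ((cβ0 f hf).symm (by exact_mod_cast hu1β)).trans (cβ0 g hg)
  · -- the outer face of colour c
    set P : Set Fc := {a | (C.Y a = y + e ∧ C.X (ph p) - 40 * t ≤ C.X a ∧
      C.X a ≤ C.X (ph p) - 10 * t) ∨ Jn S f0 a} with hP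
    have t1 := h.t1
    have hPA : P ⊆ Anr C U p t y := by
      rintro a (⟨a1, a2, a3⟩ | ha)
      · exact row_sect h he a1 a2 a3
      · exact (Jn.mem ha ⟨hf0, hf0c⟩).1.1
    have hbP : sbase C p t y e ∈ P := by
      left
      unfold sbase
      simp only [Ch.X_pt, Ch.Y_pt]
      refine ⟨trivial, ?_, ?_⟩ <;> omega
    have hb0 : Jn P (sbase C p t y e) f0 := by
      have h5 : Jn P (C.pt (C.X (ph p) - 10 * t) (y + e)) (C.pt (C.X f0) (C.Y f0)) := by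
        rw [hf0Y]
        apply C.jn_row
        intro k hk hk'
        left
        simp only [Ch.X_pt, Ch.Y_pt]
        refine ⟨trivial, ?_, ?_⟩ <;> omega
      rwa [C.pt_XY] at h5
    have hb1 : Jn P (sbase C p t y e) g0 := by
      refine hb0.trans ?_
      have key : ∀ a, Jn S f0 a → Jn P f0 a := by
        intro a ha
        induction ha with
        | refl => exact Jn.refl _
        | tail b1 b2 ih => exact ih.step (Or.inr (Jn.step b1 b2.1 b2.2)) b2.2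
      exact key g0 hfg0
    obtain ⟨f', hf', g', hg', hfg', hc'⟩ := hB P g0 hPA hbP hb1 ⟨z0, hz0, hgz0⟩
    refine ⟨f', ?_, g', hg', hfg', hc'⟩
    rcases hf' with ⟨a1, a2, a3⟩ | ha
    · exfalso
      apply hg'
      apply h.box
      have tR := h.tR
      have hx := h.x
      have y1 := h.y1
      have y2 := h.y2
      have y3 := h.y3
      have hy3 : |y - C.Y v| < R - t := by omega
      rw [abs_lt] at hy3
      have hk := C.king hfg'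
      rw [abs_le, abs_le] at hk
      rw [C.mem_Bx, abs_le, abs_le]
      rcases he with rfl | rfl <;> omega
    · exact hSβ f' ha
  · intro s hs
    obtain ⟨u', w', g1, g2⟩ := chainC (s1 :: l) hch hcr hne s1 (by simp) u1 w1 hx1' s hs
    have g3 : Jn T u1 u' := by
      refine g2.mono ?_
      rintro a ⟨a1, t', ht', a2⟩
      exact hXT t' ht' ⟨a1, a2⟩
    have hu'T : u' ∈ T := hXT s hs ⟨g1.1, g1.2.1⟩
    refine ⟨u', w', by exact_mod_cast (mβ u').2 ⟨hu'T, g3⟩, g1.2.1, g1.2.2.1, g1.2.2.2.1, ?_⟩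
    have key : ∀ a, Jn ({f | ω f = c} ∩ {f | InC C s f}) u' a →
        Jn ((↑β : Set Fc) ∩ {f | InC C s f}) u' a ∧ Jn T u1 a := by
      intro a ha
      induction ha with
      | refl => exact ⟨Jn.refl _, g3⟩
      | @tail b d _ b2 ih =>
        have h6 : d ∈ T := hXT s hs b2.1
        have h7 : Jn T u1 d := ih.2.step h6 b2.2
        exact ⟨ih.1.step ⟨by exact_mod_cast (mβ d).2 ⟨h6, h7⟩, b2.1.2⟩ b2.2, h7⟩
    exact (key w' g1.2.2.2.2).1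

end

end Pool.Agent.H98.Per
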