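import Pool.Agent.H98.Per.Geo
import Pool.Agent.H52.Tri.Ann

set_option autoImplicit false

/-! MP_2e6055, module F5 (T3c): arcs from both sides of the row segment, from rings. -/

namespace Pool.Agent.H98.Per

open Pool.Agent.H7.UC Pool.Agent.H74.Tri Pool.Agent.H75.Perc

/-- an arc of `C` from the side `e` of the row segment to the outside -/
def ArcE (U : Finset Fc) (x : Fc) (a b j e : ℤ) (C : Set Fc) : Prop :=
  ∃ c ∈ Nb x a b j e, c ∈ C ∧ ∃ l y, Jn (Sa U x a b j ∩ C) c l ∧ adjF l y ∧ y ∉ U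

theorem ArcE.mono {U : Finset Fc} {x : Fc} {a b j e : ℤ} {C C' : Set Fc} (h : C ⊆ C')
    (H : ArcE U x a b j e C) : ArcE U x a b j e C' := by
  obtain ⟨c, h1, h2, l, y, h3, h4, h5⟩ := H
  refine ⟨c, h1, h h2, l, y, h3.mono ?_, h4, h5⟩
  rintro f ⟨h6, h7⟩
  exact ⟨h6, h h7⟩

/-- steps between the row segment and the row `j + e` -/
noncomputable def fst2 (x : Fc) (a b j e : ℤ) (u v : Fc) : ZMod 2 :=
  if (u.2 = j ∧ v.2 = j + e ∧ x.1 + a ≤ u.1 ∧ u.1 ≤ x.1 + b) ∨
    (v.2 = j ∧ u.2 = j + e ∧ x.1 + a ≤ v.1 ∧ v.1 ≤ x.1 + b) then 1 else 0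

/-- a walk in the annulus has as many steps to the one side as to the other side, mod 2 -/
theorem Geo.sides {U : Finset Fc} {x : Fc} {a b j : ℤ} (h : Geo U x a b j) {W : ℕ → Fc} {L : ℕ}
    (hW : IsCl W L) (hA : ∀ i ≤ L, W i ∈ An x a b) :
    wsum (fst2 x a b j 1) W L + wsum (fst2 x a b j (-1)) W L = 0 := by
  rw [wsum_add]
  rw [← wsum_ind hW.close (fun f => if f.2 = j ∧ x.1 + a ≤ f.1 ∧ f.1 ≤ x.1 + b then 1 else 0)]
  apply wsum_congr
  intro i hi
  have h1 := hA i hi.le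
  have h2 := hA (i + 1) hi
  have h3 := (adjF_iff _ _).1 (hW.adj i hi)
  have e0 : W i ≠ (x.1 + a - 1, j) := fun hh => h.r0_not (hh ▸ h1)
  have e1 : W i ≠ (x.1 + b + 1, j) := fun hh => h.r1_not (hh ▸ h1)
  have e2 : W (i + 1) ≠ (x.1 + a - 1, j) := fun hh => h.r0_not (hh ▸ h2)
  have e3 : W (i + 1) ≠ (x.1 + b + 1, j) := fun hh => h.r1_not (hh ▸ h2)
  generalize W i = u at *
  generalize W (i + 1) = v at *
  obtain ⟨u1, u2⟩ := u
  obtain ⟨v1, v2⟩ := v
  simp only [ne_eq, Prod.mk.injEq] at e0 e1 e2 e3 h3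
  simp only [fst2]
  split_ifs <;> first | rfl | exact two_zmod 1 | (exfalso; omega)

theorem Geo.odd {U : Finset Fc} {x : Fc} {a b j : ℤ} (h : Geo U x a b j) {W : ℕ → Fc} {L : ℕ}
    (hW : IsCl W L) (hA : ∀ i ≤ L, W i ∈ An x a b) (h1 : NW W L x = 1) {e : ℤ}
    (he : e = 1 ∨ e = -1) : wsum (fst2 x a b j e) W L = 1 := by
  have a1 := h.ha1
  have a2 := h.ha2
  have key : wsum (fst2 x a b j 1) W L = 1 := by
    have e0 : NW W L x = NW W L (x.1 + a - 1, j) := by
      refine NW_jn hW (S := {f | f ∉ An x a b}) ?_ ?_ ?_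
      · rintro f hf ⟨i, hi, rfl⟩
        exact hf (hA i hi)
      · rintro ⟨i, hi, hh⟩
        have := hA i hi
        rw [hh] at this
        obtain ⟨h5, _⟩ := this
        rcases h5 with h5 | h5
        · rw [le_abs] at h5; omega
        · rw [le_abs] at h5; omega
      · refine (jn_box (i0 := x.1 - (a - 1)) (i1 := x.1 + (a - 1)) (j0 := x.2 - (a - 1))
          (j1 := x.2 + (a - 1)) ?_ ?_ ?_)
        · rintro f h1 h2 h3 h4 ⟨h5, _⟩
          rcases h5 with h5 | h5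
          · rw [le_abs] at h5; omega
          · rw [le_abs] at h5; omega
        · omega
        · simp only; omega
    have e1 : NW W L (x.1 + b + 1, j) = 0 := by
      apply NW_far
      intro i hi
      obtain ⟨_, h5, _⟩ := hA i hi
      rw [abs_le] at h5
      simp only
      omega
    have e2 : NW W L (x.1 + a - 1, j) + NW W L (x.1 + b + 1, j) = wsum (fst2 x a b j 1) W L := by
      unfold NW nW
      rw [wsum_add]
      apply wsum_congr
      intro i hi
      have h1 := hA i hi.le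
      have h2 := hA (i + 1) hi
      have h3 := (adjF_iff _ _).1 (hW.adj i hi)
      have e1 := h1.2.1
      have e3 := h2.2.1
      rw [abs_le] at e1 e3
      generalize W i = u at *
      generalize W (i + 1) = v at *
      obtain ⟨u1, u2⟩ := u
      obtain ⟨v1, v2⟩ := v
      simp only at e1 e3 h3
      simp only [fst2, cst]
      split_ifs <;> first | rfl | exact two_zmod 1 | (exfalso; omega)
    rw [← e2, e1, ← e0, h1, add_zero]
  rcases he with rfl | rfl
  · exact key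
  · have := h.sides hW hA
    rw [key] at this
    have t := two_zmod (1 : ZMod 2)
    linear_combination this - t

/-- **T3c, deterministic part** -/
theorem Geo.arc {U : Finset Fc} {x : Fc} {a b j : ℤ} (h : Geo U x a b j) {C : Set Fc}
    {W : ℕ → Fc} {L : ℕ} (hW : IsCl W L) (hA : ∀ i ≤ L, W i ∈ An x a b)
    (hC : ∀ i ≤ L, W i ∈ U → W i ∈ C) (h1 : NW W L x = 1) {e : ℤ} (he : e = 1 ∨ e = -1) :
    ArcE U x a b j e C := by
  classical
  have a1 := h.ha1
  have a2 := h.ha2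
  by_contra hcon
  have hno : ∀ c ∈ Nb x a b j e, c ∈ C → ∀ l, Jn (Sa U x a b j ∩ C) c l → ∀ y, adjF l y → y ∈ U := by
    intro c h2 h3 l h4 y h5
    by_contra h6
    exact hcon ⟨c, h2, h3, l, y, h4, h5, h6⟩
  set Q : Set Fc := {f | ∃ c ∈ Nb x a b j e, c ∈ C ∧ Jn (Sa U x a b j ∩ C) c f} with hQ
  have hQS : ∀ f ∈ Q, f ∈ Sa U x a b j ∩ C := by
    rintro f ⟨c, h2, h3, h4⟩
    exact Jn.mem h4 ⟨h.nb_mem he h2, h3⟩
  -- a face of the walk in U next to Q is in Q or in the row segment, in the second case Q is at e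
  have step : ∀ u v, u ∈ Q → v ∉ Q → adjF u v → v ∈ An x a b → (v ∈ U → v ∈ C) →
      v ∈ Rw x a b j ∧ u.2 = j + e := by
    intro u v hu hv huv hvA hvC
    obtain ⟨c, h2, h3, h4⟩ := hu
    have hvU : v ∈ U := hno c h2 h3 u h4 v huv
    have hvR : v ∈ Rw x a b j := by
      by_contra hR
      exact hv ⟨c, h2, h3, h4.step ⟨⟨hvU, hvA, hR⟩, hvC hvU⟩ huv⟩
    refine ⟨hvR, ?_⟩
    have huS : u ∈ Sa U x a b j := (hQS u ⟨c, h2, h3, h4⟩).1
    have hjS : Jn (Sa U x a b j) c u := by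
      refine h4.mono ?_
      rintro f ⟨hf, _⟩
      exact hf
    obtain ⟨r1, r2, r3⟩ := hvR
    have huR : ¬ (u.2 = j ∧ x.1 + a ≤ u.1 ∧ u.1 ≤ x.1 + b) := huS.2.2
    obtain ⟨hA1, hA2, hA3⟩ := huS.2.1
    rw [le_abs, le_abs] at hA1
    rw [abs_le] at hA2 hA3
    rw [adjF_iff] at huv
    by_contra hue
    have hcases : u.2 = j - e ∧ x.1 + a ≤ u.1 ∧ u.1 ≤ x.1 + b := by
      rcases he with rfl | rfl <;> omega
    rcases he with rfl | rfl
    · exact h.sep0 h2 (d := u) ⟨by omega, hcases.2⟩ (h.nb_mem (Or.inl rfl) h2) hjS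
    · have hu1 : u ∈ Nb x a b j 1 := ⟨by omega, hcases.2⟩
      exact h.sep0 hu1 h2 huS (hjS.symm (h.nb_mem (Or.inr rfl) h2))
  have key : wsum (fst2 x a b j e) W L = 0 := by
    rw [← wsum_ind hW.close (fun f => if f ∈ Q then 1 else 0)]
    apply wsum_congr
    intro i hi
    have hu := hA i hi.le
    have hv := hA (i + 1) hi
    have huC := hC i hi.le
    have hvC := hC (i + 1) hi
    have huv := hW.adj i hi
    generalize W i = u at *
    generalize W (i + 1) = v at *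
    -- a step between the row segment and the row j + e has its end in Q
    have conv : ∀ u v : Fc, adjF u v → u ∈ An x a b → v ∈ An x a b → (v ∈ U → v ∈ C) →
        u.2 = j → v.2 = j + e → x.1 + a ≤ u.1 → u.1 ≤ x.1 + b → u ∉ Q ∧ v ∈ Q := by
      intro u v huv hu hv hvC b1 b2 b3 b4
      have hvN : v ∈ Nb x a b j e := by
        refine ⟨b2, ?_⟩
        obtain ⟨hA1, hA2, hA3⟩ := hv
        rw [le_abs, le_abs] at hA1
        rw [abs_le] at hA2 hA3
        rw [adjF_iff] at huv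
        rcases he with rfl | rfl <;> omega
      refine ⟨fun hh => (hQS u hh).1.2.2 ⟨b1, b3, b4⟩, v, hvN, hvC (h.nb_mem he hvN).1, Jn.refl _⟩
    by_cases huQ : u ∈ Q
    · by_cases hvQ : v ∈ Q
      · rw [if_pos huQ, if_pos hvQ, two_zmod]
        unfold fst2
        rw [if_neg]
        rintro (⟨b1, b2, b3, b4⟩ | ⟨b1, b2, b3, b4⟩)
        · exact (hQS u huQ).1.2.2 ⟨b1, b3, b4⟩
        · exact (hQS v hvQ).1.2.2 ⟨b1, b3, b4⟩
      · obtain ⟨⟨b1, b2, b3⟩, b4⟩ := step u v huQ hvQ huv hv hvC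
        rw [if_pos huQ, if_neg hvQ, add_zero]
        unfold fst2
        rw [if_pos (Or.inr ⟨b1, b4, b2, b3⟩)]
    · by_cases hvQ : v ∈ Q
      · obtain ⟨⟨b1, b2, b3⟩, b4⟩ := step v u hvQ huQ (adjF_symm huv) hu huC
        rw [if_neg huQ, if_pos hvQ, zero_add]
        unfold fst2
        rw [if_pos (Or.inl ⟨b1, b4, b2, b3⟩)]
      · rw [if_neg huQ, if_neg hvQ, add_zero]
        unfold fst2
        rw [if_neg]
        rintro (⟨b1, b2, b3, b4⟩ | ⟨b1, b2, b3, b4⟩)
        · exact hvQ (conv u v huv hu hv hvC b1 b2 b3 b4).2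
        · exact huQ (conv v u (adjF_symm huv) hv hu huC b1 b2 b3 b4).2
  rw [h.odd hW hA h1 he] at key
  exact one_ne_zero key

open Pool.Agent.H52.Tri in
/-- ring ⇒ arcs -/
theorem Geo.arc_of_ring {U : Finset Fc} {x : Fc} {a b j : ℤ} (h : Geo U x a b j) {w W : ℕ}
    (hw : a = w) (hW : b = W) {D : Fc → Prop} (H : AX x w W D) {C : Set Fc}
    (hC : ∀ f, D f → f ∈ U → f ∈ C) {e : ℤ} (he : e = 1 ∨ e = -1) : ArcE U x a b j e C := by
  have hwW : w ≤ W := by
    have := h.hab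
    omega
  obtain ⟨u, n, h1, h2⟩ := H.walk hwW
  obtain ⟨V, L, h3, h4, h5, h6, h7⟩ := h1.seq
  have hcl : IsCl V L := { adj := fun i hi => TA_iff_adjF.1 (h5 i hi), close := h4.trans h3.symm }
  have a1 := h.ha1
  have a2 := h.ha2
  refine h.arc hcl ?_ ?_ ?_ he
  · intro i hi
    have h8 := (h6 i hi).2
    unfold inA at h8
    subst hw hW
    refine ⟨?_, ?_, ?_⟩
    · rw [le_abs, le_abs]; omega
    · rw [abs_le]; omega
    · rw [abs_le]; omega
  · intro i hi hU
    exact hC _ (h6 i hi).1 hU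
  · have h8 := h2 x (by omega)
    rw [h7] at h8
    exact h8

/-- the faces of the side `e` -/
noncomputable def Sec (U : Finset Fc) (x : Fc) (a b j e : ℤ) : Finset Fc := by
  classical exact U.filter (fun f => f ∈ Sa U x a b j ∧ ∃ c ∈ Nb x a b j e, Jn (Sa U x a b j) c f)

theorem mem_Sec {U : Finset Fc} {x : Fc} {a b j e : ℤ} {f : Fc} : f ∈ Sec U x a b j e ↔
    f ∈ Sa U x a b j ∧ ∃ c ∈ Nb x a b j e, Jn (Sa U x a b j) c f := by
  classical
  unfold Sec
  rw [Finset.mem_filter]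
  exact ⟨fun h => h.2, fun h => ⟨h.1.1, h⟩⟩

theorem Geo.Sec_disj {U : Finset Fc} {x : Fc} {a b j : ℤ} (h : Geo U x a b j) :
    Disjoint (Sec U x a b j 1) (Sec U x a b j (-1)) := by
  rw [Finset.disjoint_left]
  intro f h1 h2
  rw [mem_Sec] at h1 h2
  obtain ⟨hf, c, hc, hcf⟩ := h1
  obtain ⟨_, d, hd, hdf⟩ := h2
  exact h.sep0 hc hd (h.nb_mem (Or.inl rfl) hc)
    (hcf.trans (hdf.symm (h.nb_mem (Or.inr rfl) hd)))

/-- the arc event only depends on the faces of its side -/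
theorem Geo.arc_loc {U : Finset Fc} {x : Fc} {a b j e : ℤ} (h : Geo U x a b j)
    (he : e = 1 ∨ e = -1) {C : Set Fc} :
    ArcE U x a b j e C ↔ ArcE U x a b j e (C ∩ ↑(Sec U x a b j e)) := by
  constructor
  · rintro ⟨c, h1, h2, l, y, h3, h4, h5⟩
    have hc : c ∈ Sec U x a b j e := mem_Sec.2 ⟨h.nb_mem he h1, c, h1, Jn.refl _⟩
    refine ⟨c, h1, ⟨h2, by exact_mod_cast hc⟩, l, y, ?_, h4, h5⟩
    have key : ∀ l, Jn (Sa U x a b j ∩ C) c l →
        Jn (Sa U x a b j ∩ (C ∩ ↑(Sec U x a b j e))) c l ∧ Jn (Sa U x a b j) c l := by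
      intro l hl
      induction hl with
      | refl => exact ⟨Jn.refl _, Jn.refl _⟩
      | tail _ b2 ih =>
        have h7 := ih.2.step b2.1.1 b2.2
        refine ⟨ih.1.step ⟨b2.1.1, b2.1.2, ?_⟩ b2.2, h7⟩
        exact_mod_cast mem_Sec.2 ⟨b2.1.1, c, h1, h7⟩
    exact (key l h3).1
  · exact ArcE.mono fun f hf => hf.1

open Pool.Agent.H52.Tri in
/-- **T3c**: arcs have positive probability on every set of faces which contains the side. -/
theorem arc_prob (K : ℕ) : ∃ c0 : ℝ, 0 < c0 ∧ ∀ (U : Finset Fc) (x : Fc) (a b j e : ℤ),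
    Geo U x a b j → 2 * b ≤ K * (b - a) → (e = 1 ∨ e = -1) → ∀ D : Finset Fc,
    Sec U x a b j e ⊆ D →
    c0 ≤ Pr D (fun w => ArcE U x a b j e ↑w) ∧ c0 ≤ Pr D (fun w => ArcE U x a b j e {f | f ∉ w}) := by
  obtain ⟨c, hc, H⟩ := Pr_AX_off K
  refine ⟨c, hc, ?_⟩
  intro U x a b j e h hK he D hD
  have a1 := h.ha1
  have a2 := h.ha2
  have a3 := h.hab
  obtain ⟨w, hw⟩ := Int.eq_ofNat_of_zero_le (show 0 ≤ a by omega)
  obtain ⟨W, hW⟩ := Int.eq_ofNat_of_zero_le (show 0 ≤ b by omega)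
  have h1 : c ≤ Pr U (fun w => ArcE U x a b j e ↑w) := by
    refine (H x w W (by omega) ?_ U).trans (Pr_mono ?_)
    · have : (2 * W : ℤ) ≤ K * ((W - w : ℕ) : ℤ) := by
        rw [Nat.cast_sub (by omega)]
        rw [hw, hW] at hK
        exact_mod_cast hK
      exact_mod_cast this
    · intro ω _ hω
      refine h.arc_of_ring hw hW hω ?_ he
      intro f hf hfU
      rcases hf with hf | hf
      · exact_mod_cast hf
      · exact absurd hfU hf
  have e1 : ∀ E : Finset Fc, Sec U x a b j e ⊆ E →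
      Pr E (fun w => ArcE U x a b j e ↑w) =
        Pr (Sec U x a b j e) (fun w => ArcE U x a b j e ↑w) := by
    intro E hE
    rw [← Pr_restrict hE (fun w => ArcE U x a b j e ↑w)]
    apply Pr_congr
    intro ω _
    rw [h.arc_loc he, Finset.coe_inter]
  have hSU : Sec U x a b j e ⊆ U := fun f hf => (mem_Sec.1 hf).1.1
  have h2 : c ≤ Pr D (fun w => ArcE U x a b j e ↑w) := by
    rw [e1 D hD, ← e1 U hSU]
    exact h1
  refine ⟨h2, ?_⟩
  rw [← Pool.Agent.H98.Tri.Pr_flip D]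
  refine h2.trans (Pr_mono ?_)
  intro ω hω h3
  refine h3.mono ?_
  intro f hf hf'
  rw [Finset.mem_sdiff] at hf'
  exact hf'.2 (by exact_mod_cast hf)

end Pool.Agent.H98.Per
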